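import Pool.Agent.Lib.MP_be1941_al.Defs

/-!
# MP_be1941_al, block REP-A (helper5): fully ramified pairs, Ito, degrees

Paper: /team-store/MP_be1941_al_RHO2.md, section (2a), (2b).  Everything is done inside the group
algebra `ℂ[G]` (no simple `F`-module is chosen, no Skolem-Noether): for a pair `(K, κ)` the algebra
`A = e ℂ[F]`, `e = |K|⁻¹ ∑_{x ∈ K} κ(x)⁻¹ x`, is handled by the averaging formula `SpecAVG`.

Conventions: `G` is a finite group, `u g` is the group element `g` in `ℂ[G] = MonoidAlgebra ℂ G`,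
`a.coeff g` is the coefficient of `a` at `g`.

Modules: file `RP/XXX.lean`, `import Pool.Agent.Lib.MP_be1941_al.RP.SpecR`, namespace
`Pool.Agent.Lib.MPbe1941.RP`, `theorem specXXX (hYYY : SpecYYY) .. : SpecXXX` (any Spec of this
file may be a hypothesis), own lemmas in namespace `Pool.Agent.Lib.MPbe1941.RP.XXXM`.
-/

set_option autoImplicit false

namespace Pool.Agent.Lib.MPbe1941.RP

open Pool.Agent.Lib.MPbe1941

/-- `h` maps `K` into `K` and fixes the function `κ` on `K`. -/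
def FixK {G : Type} [Group G] (K : Subgroup G) (κ : G → ℂ) (h : G) : Prop :=
  ∀ x ∈ K, h * x * h⁻¹ ∈ K ∧ κ (h * x * h⁻¹) = κ x

/-- A fully ramified pair `(K, κ)` in `F`: `F` is normal in `G`, `K ≤ F`, `F / K` is abelian, `κ` is
a linear character of `K`, invariant under `F`, and `(x, y) ↦ κ [x, y]` is nondegenerate on
`F / K`. -/
structure IsPair {G : Type} [Group G] (F K : Subgroup G) (κ : G → ℂ) : Prop where
  Fn : F.Normal
  le : K ≤ F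
  comm : ∀ x ∈ F, ∀ y ∈ F, x * y * x⁻¹ * y⁻¹ ∈ K
  one : κ 1 = 1
  mul : ∀ x ∈ K, ∀ y ∈ K, κ (x * y) = κ x * κ y
  inv : ∀ f ∈ F, FixK K κ f
  nd : ∀ x ∈ F, x ∉ K → ∃ y ∈ F, κ (x * y * x⁻¹ * y⁻¹) ≠ 1

/-- The group element `g` in the group algebra. -/
noncomputable abbrev u {G : Type} [Group G] (g : G) : MonoidAlgebra ℂ G :=
  MonoidAlgebra.single g 1

/-- The idempotent `e = |K|⁻¹ ∑_{x ∈ K} κ(x)⁻¹ x`. -/
noncomputable def eK {G : Type} [Group G] (K : Subgroup G) (κ : G → ℂ) : MonoidAlgebra ℂ G :=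
  (Nat.card K : ℂ)⁻¹ • ∑ᶠ x : K, MonoidAlgebra.single (x : G) (κ x)⁻¹

/-- `a` lies in `A = e ℂ[F]`: it is supported on `F` and `k a = κ(k) a` for `k ∈ K`. -/
def InA {G : Type} [Group G] (F K : Subgroup G) (κ : G → ℂ) (a : MonoidAlgebra ℂ G) : Prop :=
  (∀ g, g ∉ F → a.coeff g = 0) ∧ ∀ k ∈ K, u k * a = κ k • a

/-- `h` fixes `(K, κ)` and the character `β` of `E`. -/
def InI {G : Type} [Group G] (K : Subgroup G) (κ : G → ℂ) (E : Subgroup G) (β : G → ℂ) (h : G) :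
    Prop :=
  FixK K κ h ∧ ∀ x ∈ E, β (h * x * h⁻¹) = β x

/-- Basic facts on `e` and `A`; see `SpecBAS`. -/
structure Bas {G : Type} [Group G] (F K : Subgroup G) (κ : G → ℂ) : Prop where
  /-- `κ` has no zero on `K` -/
  ne : ∀ k ∈ K, κ k ≠ 0
  kinv : ∀ k ∈ K, κ k⁻¹ = (κ k)⁻¹
  /-- coefficients of `e` -/
  e1 : ∀ g ∈ K, (eK K κ).coeff g = (Nat.card K : ℂ)⁻¹ * (κ g)⁻¹
  e0 : ∀ g, g ∉ K → (eK K κ).coeff g = 0
  eA : InA F K κ (eK K κ)
  idem : eK K κ * eK K κ = eK K κ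
  ke : ∀ k ∈ K, u k * eK K κ = κ k • eK K κ
  /-- `e` is the unit of `A` -/
  el : ∀ a, InA F K κ a → eK K κ * a = a
  er : ∀ a, InA F K κ a → a * eK K κ = a
  /-- the coefficients of `a ∈ A` on a coset of `K` -/
  co : ∀ a, InA F K κ a → ∀ k ∈ K, ∀ g, a.coeff (k * g) = (κ k)⁻¹ * a.coeff g
  /-- closure properties of `A` -/
  add : ∀ a b, InA F K κ a → InA F K κ b → InA F K κ (a + b)
  smul : ∀ (c : ℂ) a, InA F K κ a → InA F K κ (c • a)
  mul : ∀ a b, InA F K κ a → InA F K κ b → InA F K κ (a * b)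
  lmul : ∀ f ∈ F, ∀ a, InA F K κ a → InA F K κ (u f * a)
  rmul : ∀ f ∈ F, ∀ a, InA F K κ a → InA F K κ (a * u f)
  /-- the stabiliser of `(K, κ)` -/
  fmul : ∀ g h, FixK K κ g → FixK K κ h → FixK K κ (g * h)
  finv : ∀ g, FixK K κ g → FixK K κ g⁻¹
  /-- `e` commutes with the stabiliser of `(K, κ)` -/
  ce : ∀ g, FixK K κ g → u g * eK K κ = eK K κ * u g
  /-- orthogonality of the conjugates of `e` -/
  ort : ∀ g, ¬ FixK K κ g → eK K κ * u g * eK K κ = 0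

/-- **BAS** (150 lines). `κ(k) κ(k⁻¹) = κ(1) = 1`. Coefficients of `e`: direct from the definition
(`finsum_eq_sum_of_fintype`, `MonoidAlgebra.coeff_sum`, `Finsupp.single_apply`). `k e = κ(k) e`:
substitute in the sum. `a ∈ A`: `e a = |K|⁻¹ ∑ κ(x)⁻¹ x a = a`; `(k⁻¹ a).coeff g = a.coeff (k g)`,
so `a.coeff (k g) = κ(k⁻¹) a.coeff g`. `a * e = a`: `a = ∑_{g ∈ F} a.coeff g • g`, `g e = e g` by
`inv` and `ce`, so `a e = e a = a`. `lmul`: `k f a = f (f⁻¹ k f) a = κ(f⁻¹ k f) f a = κ(k) f a`.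
`finv`: conjugation by `g` maps the finite set `K` injectively into, hence onto, itself. `ce`:
`g e g⁻¹ = e` by substitution. `ort`: if `κ(z) = κ(g⁻¹ z g)` for all `z ∈ K` with `g⁻¹ z g ∈ K` then
`FixK K κ g`: let `x ∈ K`; if `g x g⁻¹` (an element of `F`) is not in `K`, `nd` gives `y ∈ F` with
`κ [g x g⁻¹, y] ≠ 1`; but `z = [g x g⁻¹, y] ∈ K`, `g⁻¹ z g = [x, y'] = x (y' x⁻¹ y'⁻¹)`,
`y' = g⁻¹ y g ∈ F`, is in `K` and has `κ = 1` (`inv`, `mul`), a contradiction; so `g x g⁻¹ ∈ K` and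
with `z = g x g⁻¹` one gets `κ (g x g⁻¹) = κ x`. So if `FixK` fails there is `z ∈ K`,
`z' = g⁻¹ z g ∈ K`, `κ z ≠ κ z'`, and `κ(z) e g e = e z g e = e g z' e = κ(z') e g e`. -/
def SpecBAS : Prop :=
  ∀ (G : Type) [Group G] [Finite G] (F K : Subgroup G) (κ : G → ℂ), IsPair F K κ → Bas F K κ

/-- **AVG** (from BAS; 120 lines). Averaging over `F`: for `a ∈ A`,
`∑_{y ∈ F} y a y⁻¹ = |F| |K| a(1) e`. Compare the coefficients at `g`: left
`∑_y a.coeff (y⁻¹ g y)` (`MonoidAlgebra` lemmas on `single_mul`, `mul_single`). If `g ∉ F` both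
sides vanish (`F` is a subgroup). If `g ∈ F`: `y⁻¹ g y = k g` with `k = y⁻¹ g y g⁻¹ ∈ K`, so the
summand is `κ(k)⁻¹ a.coeff g` (`Bas.co`). If `g ∈ K`: `κ(k) = κ(y⁻¹ g y) κ(g⁻¹) = 1`, the sum is
`|F| a.coeff g = |F| κ(g)⁻¹ a.coeff 1`. If `g ∈ F \ K`: `θ(y) = κ(y⁻¹ g y g⁻¹)` satisfies
`θ(y y') = θ(y) θ(y')` for `y, y' ∈ F` (`[y'⁻¹ y⁻¹, g] = y'⁻¹ [y⁻¹, g] y' [y'⁻¹, g]` and `κ` is
`F`-invariant) and `θ(y₀) ≠ 1` for some `y₀` by `nd`, so `∑ θ(y)⁻¹ = θ(y₀)⁻¹ ∑ θ(y)⁻¹ = 0`. -/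
def SpecAVG : Prop :=
  ∀ (G : Type) [Group G] [Finite G] (F K : Subgroup G) (κ : G → ℂ), IsPair F K κ →
    ∀ a, InA F K κ a → ∑ᶠ y : F, u (y : G) * a * u ((y : G)⁻¹) =
      ((Nat.card F : ℂ) * (Nat.card K : ℂ) * a.coeff 1) • eK K κ

/-- **CEN** (from AVG, BAS; 40 lines). The centre of `A`: if `a` commutes with `F` then all summands
of AVG are `a`, so `|F| a = |F| |K| a(1) e`. -/
def SpecCEN : Prop :=
  ∀ (G : Type) [Group G] [Finite G] (F K : Subgroup G) (κ : G → ℂ), IsPair F K κ →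
    ∀ a, InA F K κ a → (∀ y ∈ F, u y * a = a * u y) → ∃ c : ℂ, a = c • eK K κ

/-- **IMP** (from BAS, AVG, CEN; 180 lines). Conjugation by `j` is inner on `A`.
For `b ∈ A` put `T_b = ∑_{x ∈ F} (j x j⁻¹) b x⁻¹`; `T_b ∈ A` and `(j y j⁻¹) T_b = T_b y` for
`y ∈ F` (substitute `x = y x'`). Some `T_b` is not zero: with `b = e z`,
`∑_{z ∈ F} T_{e z} z⁻¹ = ∑_x (j x j⁻¹) ∑_z z (e x⁻¹) z⁻¹` (here `e z x⁻¹ z⁻¹ = z (e x⁻¹) z⁻¹` as `e`
commutes with `z`) `= ∑_x (j x j⁻¹) |F| |K| (e x⁻¹).coeff 1 • e` by AVG, and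
`(e x⁻¹).coeff 1 = e.coeff x` is `|K|⁻¹ κ(x)⁻¹` for `x ∈ K` and `0` otherwise, so the sum is
`|F| ∑_{x ∈ K} κ(j x j⁻¹) κ(x)⁻¹ e = |F| |K| e ≠ 0`. Let `t = T_b ≠ 0`, `w ∈ F` with
`t.coeff w ≠ 0`, `b' = e w⁻¹`, `s = ∑_{x ∈ F} (j⁻¹ x j) b' x⁻¹ ∈ A`. From
`x⁻¹ t = t (j⁻¹ x⁻¹ j)`: `s t = ∑_x (j⁻¹ x j) (b' t) (j⁻¹ x j)⁻¹ = |F| |K| (b' t).coeff 1 • e` by AVG
(reindex `x ↦ j⁻¹ x j` of `F`) and `(b' t).coeff 1 = (w⁻¹ t).coeff 1 = t.coeff w ≠ 0`. So
`t' = c⁻¹ s` has `t' t = e`. `t t' ∈ A` commutes with `F` (`y t t' = t (j⁻¹ y j) t' = t t' y`), so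
`t t' = c e` by CEN and `t' = (t' t) t' = t' (t t') = c t'` gives `c = 1` (`t' ≠ 0`). -/
def SpecIMP : Prop :=
  ∀ (G : Type) [Group G] [Finite G] (F K : Subgroup G) (κ : G → ℂ), IsPair F K κ →
    ∀ j, FixK K κ j → ∃ t t', InA F K κ t ∧ InA F K κ t' ∧ t * t' = eK K κ ∧ t' * t = eK K κ ∧
      ∀ y ∈ F, u (j * y * j⁻¹) * t = t * u y

/-- **DET** (from BAS; 150 lines). `δ(t)` := `LinearMap.det` of the left multiplication by `t` on the
subspace `A = {a | InA F K κ a}` of `ℂ[G]` (`0` if `t ∉ A`). It is multiplicative, `δ(e) = 1` since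
`e` acts as the identity, `δ(c t) = c ^ (dim A) δ(t)` (`LinearMap.det_smul`), and
`dim A = |F : K|`: the map `a ↦ (q ↦ a.coeff (q.out))` from `A` to the functions on
`F ⧸ K.subgroupOf F` is injective by `Bas.co` (`q.out⁻¹ g ∈ K`, `g = k q.out` with `k ∈ K` since `K`
is normalised by `F`) and surjective: the values on the representatives extend by
`a.coeff (k q.out) = κ(k)⁻¹ f(q)`. `K.relIndex F = Nat.card (F ⧸ K.subgroupOf F)`. -/
def SpecDET : Prop :=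
  ∀ (G : Type) [Group G] [Finite G] (F K : Subgroup G) (κ : G → ℂ), IsPair F K κ →
    ∃ δ : MonoidAlgebra ℂ G → ℂ, δ (eK K κ) = 1 ∧
      (∀ s t, InA F K κ s → InA F K κ t → δ (s * t) = δ s * δ t) ∧
      ∀ (c : ℂ) t, InA F K κ t → δ (c • t) = c ^ K.relIndex F * δ t

/-- **HOM** (from BAS, CEN, IMP, DET; 180 lines). `N := |F : K|` is prime to `|J|`. For `j ∈ J` choose
`t_j` as in IMP, rescaled so that `δ(t_j) = 1` (`δ(t_j) ≠ 0` because `δ(t) δ(t') = 1`; `N ≠ 0`,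
roots exist in `ℂ`). For `j, k ∈ J`: `t_j t_k t'_{jk} ∈ A` commutes with `F`, so
`t_j t_k = g(j,k) t_{jk}`, `g(j,k)^N = 1` by `δ`. Associativity: `g(j,k) g(jk,l) = g(j,kl) g(k,l)`
(cancel the invertible `t_{jkl}`; `e ≠ 0`). Product over `l ∈ J`, `γ(j) = ∏_l g(j,l)`:
`g(j,k)^{|J|} γ(jk) = γ(j) γ(k)`. Choose `m` with `N | m |J| + 1`. Then `T_j := γ(j)^m t_j`
satisfies `T_j T_k = γ(j)^m γ(k)^m g(j,k) t_{jk} = g(j,k)^{m|J|+1} γ(jk)^m t_{jk} = T_{jk}`.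
`T_1 T_1 = T_1` and `T_1` has an inverse in `A`, so `T_1 = e`. Outside `J` put `t = 0`. -/
def SpecHOM : Prop :=
  ∀ (G : Type) [Group G] [Finite G] (F K : Subgroup G) (κ : G → ℂ), IsPair F K κ →
    ∀ J : Subgroup G, (∀ j ∈ J, FixK K κ j) → (K.relIndex F).Coprime (Nat.card J) →
      ∃ t : G → MonoidAlgebra ℂ G, t 1 = eK K κ ∧ (∀ j ∈ J, InA F K κ (t j)) ∧
        (∀ j ∈ J, ∀ k ∈ J, t (j * k) = t j * t k) ∧
        ∀ j ∈ J, ∀ y ∈ F, u (j * y * j⁻¹) * t j = t j * u y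

/-- **UOP** (from BAS, HOM; 120 lines). `U_a := t_{a⁻¹} a` (`a ∈ J`). (1) For `a' ∈ A`, `j ∈ J`:
`j a' j⁻¹ = t_j a' t_{j⁻¹}` [`a' = ∑_{x ∈ F} a'(x) x`, `t_j a' = ∑ a'(x) (j x j⁻¹) t_j =
(j a' j⁻¹) t_j`; multiply by `t_{j⁻¹}`, `t_j t_{j⁻¹} = e`, `(j a' j⁻¹) e = j a' e j⁻¹ = j a' j⁻¹`].
(2) `U_a U_b = t_{a⁻¹} (a t_{b⁻¹} a⁻¹) a b = t_{a⁻¹} t_a t_{b⁻¹} t_{a⁻¹} a b = t_{(ab)⁻¹} a b`.
(3) `U_a y = t_{a⁻¹} (a y a⁻¹) a = y t_{a⁻¹} a`. (4) `e j = t_j U_j`; `t_j ∈ A` commutes with every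
`U_a` (by (3) and linearity), so `e j U_a = t_j U_j U_a = t_j U_{jaj⁻¹} U_j = U_{jaj⁻¹} e j`, and
`j U_a = j e U_a = e j U_a`, `U_{jaj⁻¹} e j = U_{jaj⁻¹} j` (`e U_a = U_a = U_a e`).
(5) `U_a` is supported on `F a`, and `1 ∈ F a` only if `a ∈ F ∩ J = 1`. -/
def SpecUOP : Prop :=
  ∀ (G : Type) [Group G] [Finite G] (F K : Subgroup G) (κ : G → ℂ), IsPair F K κ →
    ∀ J : Subgroup G, (∀ j ∈ J, FixK K κ j) → (K.relIndex F).Coprime (Nat.card J) → F ⊓ J = ⊥ →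
      ∃ U : G → MonoidAlgebra ℂ G, U 1 = eK K κ ∧ (∀ a ∈ J, ∀ b ∈ J, U (a * b) = U a * U b) ∧
        (∀ a ∈ J, ∀ y ∈ F, u y * U a = U a * u y) ∧
        (∀ a ∈ J, ∀ j ∈ J, u j * U a = U (j * a * j⁻¹) * u j) ∧
        ∀ a ∈ J, a ≠ 1 → (U a).coeff 1 = 0

/-- **EPS** (from BAS, UOP; 180 lines). `J := {h ∈ H | FixK K κ h}` (a subgroup, `Bas.fmul`,
`Bas.finv`; `|J|` divides `|H|`), `U` from UOP, `ε := |E|⁻¹ ∑_{a ∈ E} β(a)⁻¹ U_a`.
`ε.coeff 1 = |E|⁻¹ e.coeff 1 = |E|⁻¹ |K|⁻¹ ≠ 0`, so `ε ≠ 0`. `U_b ε = β(b) ε = ε U_b` for `b ∈ E`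
(`E` abelian), so `ε² = ε`; `e ε = ε = ε e`. `y ε = ε y` for `y ∈ F`. For `j ∈ J` with
`β(j a j⁻¹) = β(a)` on `E`: `j ε = |E|⁻¹ ∑ β(a)⁻¹ U_{jaj⁻¹} j = ε j` (the map `a ↦ j a j⁻¹` permutes
`E`). For `j ∈ J` and `b ∈ E` with `β(j b j⁻¹) ≠ β(b)`:
`β(b) ε j ε = ε j U_b ε = ε U_{jbj⁻¹} j ε = β(jbj⁻¹) ε j ε`, so `ε j ε = 0`, and for `y ∈ F`
`ε y j ε = y ε j ε = 0`. If `FixK` fails for `h ∈ H`, it fails for `y h` (`y ∈ F`: `Bas.fmul`,
`Bas.finv`, `IsPair.inv`) and `ε y h ε = ε (e (y h) e) ε = 0` by `Bas.ort`. -/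
def SpecEPS : Prop :=
  ∀ (G : Type) [Group G] [Finite G] (F K : Subgroup G) (κ : G → ℂ), IsPair F K κ →
    ∀ (H E : Subgroup G) (β : G → ℂ), F ⊓ H = ⊥ → (K.relIndex F).Coprime (Nat.card H) → E ≤ H →
      (∀ x ∈ E, ∀ y ∈ E, x * y = y * x) → (∀ x ∈ E, FixK K κ x) →
      (∀ h ∈ H, FixK K κ h → ∀ x ∈ E, h * x * h⁻¹ ∈ E) → β 1 = 1 →
      (∀ x ∈ E, ∀ y ∈ E, β (x * y) = β x * β y) →
      ∃ ε : MonoidAlgebra ℂ G, ε ≠ 0 ∧ ε * ε = ε ∧ eK K κ * ε = ε ∧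
        (∀ y ∈ F, ∀ h ∈ H, InI K κ E β h → u (y * h) * ε = ε * u (y * h)) ∧
        ∀ y ∈ F, ∀ h ∈ H, ¬ InI K κ E β h → ε * u (y * h) * ε = 0

/-- **IRR** (120 lines). A nonzero element of `ℂ[G]` acts nontrivially in some irreducible
representation. `ℂ[G]` is a semisimple module over itself (Maschke: `MonoidAlgebra` instances,
`IsSemisimpleModule`), hence the supremum of its simple submodules
(`IsSemisimpleModule.sSup_simples_eq_top`); if `a` kills every simple submodule then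
`a = a * 1 = 0`. So `a` does not kill some simple submodule `S`; `S` is finite-dimensional over `ℂ`;
transport it to `Fin d → ℂ` by a basis (`Module.finBasis`, `basis.equivFun`) and use
`Representation.irreducible_iff_isSimpleModule_asModule` or the definition directly. -/
def SpecIRR : Prop :=
  ∀ (G : Type) [Group G] [Finite G] (a : MonoidAlgebra ℂ G), a ≠ 0 →
    ∃ (d : ℕ) (ρ : Representation ℂ G (Fin d → ℂ)), ρ.IsIrreducible ∧ ρ.asAlgebraHom a ≠ 0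

/-- **IDM** (100 lines). Imprimitivity by an idempotent. `P := ∑_{g ∈ G} ρ(g) ρ(ε) ρ(g⁻¹)` commutes
with `ρ(G)`, so `P = c • 1` (Schur:
`Representation.IsIrreducible.algebraMap_intertwiningMap_bijective_of_isAlgClosed`).
`ρ(ε) P = ∑_{g ∈ S} ρ(ε) ρ(g) ρ(ε) ρ(g)⁻¹ = |S| ρ(ε)` (the terms with `g ∉ S` vanish), so
`c = |S|`. Traces: `|S| dim V = tr P = |G| tr ρ(ε) = |G| dim (range ρ(ε))`
(`LinearMap.IsProj.trace` or `LinearMap.IsIdempotentElem` lemmas; cast to `ℂ`). -/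
def SpecIDM : Prop :=
  ∀ (G : Type) [Group G] [Finite G] (V : Type) [AddCommGroup V] [Module ℂ V]
    [FiniteDimensional ℂ V] (ρ : Representation ℂ G V), ρ.IsIrreducible →
    ∀ (S : Subgroup G) (ε : MonoidAlgebra ℂ G), ε * ε = ε → (∀ s ∈ S, u s * ε = ε * u s) →
      (∀ g, g ∉ S → ε * u g * ε = 0) → ρ.asAlgebraHom ε ≠ 0 →
      Module.finrank ℂ V * Nat.card S =
        Nat.card G * Module.finrank ℂ (LinearMap.range (ρ.asAlgebraHom ε))

/-- **DSQ** (from BAS; 150 lines). `Y := range ρ(e)` is stable under `F` (`f e = e f`) and `k ∈ K`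
acts on `Y` as `κ(k)`. Let `χ` be the character of the representation `σ` of (the group) `F` on `Y`.
For `x ∈ F \ K` choose `y ∈ F`, `c = x y x⁻¹ y⁻¹ ∈ K`, `κ(c) ≠ 1`: `y x y⁻¹ = c⁻¹ x` so
`χ(x) = χ(y x y⁻¹) = κ(c)⁻¹ χ(x)`, `χ(x) = 0`. For `x ∈ K`: `χ(x) = κ(x) dim Y`. By
`Representation.card_inv_mul_sum_char_mul_char_eq_finrank` (for `σ, σ`):
`|F|⁻¹ |K| (dim Y)² = finrank (IntertwiningMap σ σ)` is a natural number `m`, so
`|K| (dim Y)² = |F| m = |K| |F : K| m`. -/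
def SpecDSQ : Prop :=
  ∀ (G : Type) [Group G] [Finite G] (F K : Subgroup G) (κ : G → ℂ), IsPair F K κ →
    ∀ (V : Type) [AddCommGroup V] [Module ℂ V] [FiniteDimensional ℂ V]
      (ρ : Representation ℂ G V),
      K.relIndex F ∣ Module.finrank ℂ (LinearMap.range (ρ.asAlgebraHom (eK K κ))) ^ 2

/-- **REPA** = (2a) of the paper (from BAS, EPS, IRR, IDM, DSQ; 150 lines); the interface with block
REP-B (there: `SpecPAIR`). `ε` from EPS; IRR gives an irreducible `ρ` on `Fin d → ℂ` with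
`ρ(ε) ≠ 0`, hence `ρ(e) ≠ 0` (`e ε = ε`). IDM with `S = {y h | y ∈ F, h ∈ I}`,
`I = {h ∈ H | InI K κ E β h}` (subgroups: `Bas.fmul`, `Bas.finv`; elements of `G` are uniquely
`y h`; `|S| = |F| |I|`, `|G| = |F| |H|`): `d |I| = |H| m`. IDM with `{y h | y ∈ F, h ∈ J}`,
`J = {h ∈ H | FixK K κ h}`, and `e` (hypotheses: `Bas.ce`, `Bas.ort`):
`d |J| = |H| dim (range ρ(e))`, so `dim (range ρ(e)) ∣ d` and with DSQ a prime divisor of `|F : K|`
divides `d`. If `r ∤ d` then `d |I| = |H| m` shows that the full power of `r` in `|H|` divides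
`|I|`, so a Sylow `r`-subgroup `R` of `I` satisfies `SylIn r H R`, and all its elements are in
`I`. -/
def SpecREPA : Prop :=
  ∀ (G : Type) [Group G] [Finite G] (F K H : Subgroup G) (κ : G → ℂ), IsPair F K κ →
    F ⊔ H = ⊤ → F ⊓ H = ⊥ → (K.relIndex F).Coprime (Nat.card H) →
    ∀ (E : Subgroup G) (β : G → ℂ), E ≤ H → (∀ x ∈ E, ∀ y ∈ E, x * y = y * x) →
    (∀ x ∈ E, FixK K κ x) → (∀ h ∈ H, FixK K κ h → ∀ x ∈ E, h * x * h⁻¹ ∈ E) → β 1 = 1 →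
    (∀ x ∈ E, ∀ y ∈ E, β (x * y) = β x * β y) →
    ∃ d, IsDeg G d ∧ (∀ r, r.Prime → r ∣ K.relIndex F → r ∣ d) ∧
      ∀ r, r.Prime → (∀ R : Subgroup G, SylIn r H R → ∃ h ∈ R, ¬ InI K κ E β h) → r ∣ d

/-! ## Ito's theorem and the bridge to `FDRep` -/

/-- **DIV** (180 lines). The degree of an irreducible representation divides the group order.
`n = dim V ≠ 0`, `χ` the character, `z = ∑_g χ(g⁻¹) ρ(g)` commutes with `ρ(G)`, so `z = c • 1`
(Schur), and `c n = tr z = ∑ χ(g⁻¹) χ(g) = |G|` (`Representation.char_orthonormal`). Every `χ(g)` is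
an algebraic integer (sum of the roots of the characteristic polynomial, which are roots of unity:
`ρ(g) ^ |G| = 1`). Let `B` be the `ℤ`-subalgebra of `ℂ` generated by the finite set of the `χ(g)`
(a finitely generated `ℤ`-module, `Algebra.adjoin` of integral elements) and `L ≤ End V` the
`ℤ`-span of the finite set of products (generator of `B`) `• ρ(g)`: finitely generated, nonzero, and
`c • x = z * x ∈ L` for `x ∈ L`. By `isIntegral_of_smul_mem_submodule` `c` is integral over `ℤ`;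
`c = |G| / n` is rational, so it is an integer (`ℤ` is integrally closed). -/
def SpecDIV : Prop :=
  ∀ (G : Type) [Group G] [Finite G] (V : Type) [AddCommGroup V] [Module ℂ V]
    [FiniteDimensional ℂ V] (ρ : Representation ℂ G V), ρ.IsIrreducible →
    Module.finrank ℂ V ∣ Nat.card G

/-- **EIG** (100 lines). A finite abelian group `P` acting on a nonzero finite-dimensional space has
a common eigenvector. (A minimal nonzero subrepresentation is irreducible, hence of dimension one: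
`Representation.IsIrreducible.finrank_eq_one_of_isMulCommutative`; or by induction with
`Module.End.exists_eigenvalue`.) Here `P` is a subgroup of `G`, the representation is one of `G`. -/
def SpecEIG : Prop :=
  ∀ (G : Type) [Group G] [Finite G] (P : Subgroup G), (∀ x ∈ P, ∀ y ∈ P, x * y = y * x) →
    ∀ (V : Type) [AddCommGroup V] [Module ℂ V] [FiniteDimensional ℂ V] [Nontrivial V]
      (ρ : Representation ℂ G V), ∃ (lam : G → ℂ) (v : V), v ≠ 0 ∧ lam 1 = 1 ∧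
        (∀ x ∈ P, ∀ y ∈ P, lam (x * y) = lam x * lam y) ∧ ∀ x ∈ P, ρ x v = lam x • v

/-- **ITO** (from BAS, IDM, DIV, EIG; 180 lines). Let `P` be the normal abelian Sylow `r`-subgroup, `C`
a complement (`Subgroup.exists_right_complement'_of_coprime`), `V = Fin d → ℂ`, `lam`, `v` from EIG.
`(P, lam)` is a pair in `P` (`IsPair P P lam`; `nd` is empty), `e := eK P lam`, `ρ(e) v = v`. Let
`S = {g | FixK P lam g}` (contains `P`), `J = S ∩ C`; IDM with `ε = e` (`Bas.ce`, `Bas.ort`):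
`d |S| = |G| dim Y`, `Y = range ρ(e)`. As `P ≤ S`, `|G : S|` divides `|G : P|`, so it is prime to
`r`; `d = |G : S| dim Y`; it remains to see `r ∤ dim Y`. `Y` is stable under `J` (group), and
irreducible: let `0 ≠ Y' ≤ Y` be `J`-stable; the span of all `ρ(g) Y'` is `G`-stable, so it is `V`;
`Y = ρ(e) V` is spanned by the `ρ(e) ρ(g) y' = ρ(e g e) y'`, which is `0` for `g ∉ S` and
`ρ(g) y' = lam(p) ρ(j) y' ∈ Y'` for `g = p j ∈ S` (`p ∈ P`, `j ∈ J`). So `dim Y ∣ |J|` by DIV and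
`|J|` divides `|C| = |G : P|`. -/
def SpecITOR : Prop := SpecITO

/-- **FDR** (150 lines). `IsDeg` in terms of `FDRep`. From left to right: `FDRep.of ρ`;
`FDRep.simple_iff_char_is_norm_one` and `Representation.char_orthonormal`. From right to left:
`V.ρ` is irreducible: otherwise (Maschke) there is a `G`-projection onto a proper nonzero subspace,
so `Hom_G(V, V)` has dimension `> 1`, contradicting the norm one criterion (or use directly that a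
subrepresentation gives a mono in `FDRep`); transport `V.ρ` to `Fin d → ℂ` by a basis. (Similar:
`Pool/Agent/Lib/MP_1aae89_al/Char.lean`, `exists_fin`, `Char2.lean`, `split`, `end_pos`,
`norm_one`.) -/
def SpecFDR : Prop :=
  ∀ (G : Type) [Group G] [Finite G] (d : ℕ),
    IsDeg G d ↔ ∃ V : FDRep ℂ G, CategoryTheory.Simple V ∧ Module.finrank ℂ V = d

end Pool.Agent.Lib.MPbe1941.RP
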