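import Pool.Agent.Lib.MP_be1941_al.RP.SpecR

section
/-!
# MP_be1941_al, block REP-A: module AVG

Averaging over `F` in `A = e ℂ[F]`: `∑_{y ∈ F} y a y⁻¹ = |F| |K| a(1) e`.
-/
set_option autoImplicit false

namespace Pool.Agent.Lib.MPbe1941.RP

open Pool.Agent.Lib.MPbe1941

namespace AVGM

lemma coeff_conj {G : Type} [Group G] (a : MonoidAlgebra ℂ G) (y g : G) :
    (u y * a * u y⁻¹).coeff g = a.coeff (y⁻¹ * g * y) := by
  simp [u, mul_assoc]

lemma theta_mul {G : Type} [Group G] {F K : Subgroup G} {κ : G → ℂ} (hP : IsPair F K κ)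
    {g : G} (hg : g ∈ F) {y z : G} (hy : y ∈ F) (hz : z ∈ F) :
    κ ((y * z)⁻¹ * g * (y * z) * g⁻¹) = κ (y⁻¹ * g * y * g⁻¹) * κ (z⁻¹ * g * z * g⁻¹) := by
  have h1 : y⁻¹ * g * y * g⁻¹ ∈ K := by
    have := hP.comm y⁻¹ (F.inv_mem hy) g hg
    simpa using this
  have h2 : z⁻¹ * g * z * g⁻¹ ∈ K := by
    have := hP.comm z⁻¹ (F.inv_mem hz) g hg
    simpa using this
  have h3 := hP.inv z⁻¹ (F.inv_mem hz) _ h1
  have h4 : (y * z)⁻¹ * g * (y * z) * g⁻¹ =
      (z⁻¹ * (y⁻¹ * g * y * g⁻¹) * (z⁻¹)⁻¹) * (z⁻¹ * g * z * g⁻¹) := by group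
  rw [h4, hP.mul _ h3.1 _ h2, h3.2]

end AVGM

theorem specAVG (hBAS : SpecBAS) : SpecAVG := by
  intro G _ _ F K κ hP a ha
  classical
  have B := hBAS G F K κ hP
  have : Fintype F := Fintype.ofFinite F
  have hKc : (Nat.card K : ℂ) ≠ 0 := by
    have : 0 < Nat.card K := Nat.card_pos
    exact_mod_cast this.ne'
  rw [finsum_eq_sum_of_fintype]
  apply MonoidAlgebra.ext
  ext g
  rw [MonoidAlgebra.coeff_sum, Finsupp.finsetSum_apply, MonoidAlgebra.coeff_smul_apply,
    smul_eq_mul]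
  simp only [AVGM.coeff_conj]
  by_cases hgF : g ∈ F
  · have hk : ∀ y : F, (y : G)⁻¹ * g * y * g⁻¹ ∈ K := by
      intro y
      have := hP.comm (y : G)⁻¹ (F.inv_mem y.2) g hgF
      simpa using this
    have h1 : ∀ y : F, a.coeff ((y : G)⁻¹ * g * y) =
        (κ ((y : G)⁻¹ * g * y * g⁻¹))⁻¹ * a.coeff g := by
      intro y
      have := B.co a ha _ (hk y) g
      rw [← this]
      congr 1
      group
    simp only [h1]
    rw [← Finset.sum_mul]
    by_cases hgK : g ∈ K
    · have h2 : ∀ y : F, κ ((y : G)⁻¹ * g * y * g⁻¹) = 1 := by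
        intro y
        have h3 := hP.inv (y : G)⁻¹ (F.inv_mem y.2) g hgK
        rw [inv_inv] at h3
        rw [hP.mul _ h3.1 _ (K.inv_mem hgK), h3.2, B.kinv g hgK,
          mul_inv_cancel₀ (B.ne g hgK)]
      have h4 := B.co a ha g hgK 1
      rw [mul_one] at h4
      simp only [h2, inv_one, Finset.sum_const, Finset.card_univ, nsmul_eq_mul, mul_one]
      rw [h4, B.e1 g hgK, Nat.card_eq_fintype_card (α := F)]
      field_simp
    · obtain ⟨y₀, hy₀, hne⟩ := hP.nd g hgF hgK
      have h5 : κ (((y₀⁻¹ : G))⁻¹ * g * y₀⁻¹ * g⁻¹) ≠ 1 := by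
        intro h
        apply hne
        have h6 : g * y₀ * g⁻¹ * y₀⁻¹ = (((y₀⁻¹ : G))⁻¹ * g * y₀⁻¹ * g⁻¹)⁻¹ := by group
        have h7 := hk ⟨y₀⁻¹, F.inv_mem hy₀⟩
        rw [h6, B.kinv _ h7, h, inv_one]
      have h8 : ∑ y : F, (κ ((y : G)⁻¹ * g * y * g⁻¹))⁻¹ =
          (κ (((y₀⁻¹ : G))⁻¹ * g * y₀⁻¹ * g⁻¹))⁻¹ *
            ∑ y : F, (κ ((y : G)⁻¹ * g * y * g⁻¹))⁻¹ := by
        rw [Finset.mul_sum]
        rw [← Equiv.sum_comp (Equiv.mulLeft (⟨y₀⁻¹, F.inv_mem hy₀⟩ : F))]
        refine Finset.sum_congr rfl fun y _ => ?_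
        have h9 := AVGM.theta_mul hP hgF (F.inv_mem hy₀) y.2
        rw [← mul_inv, ← h9]
        rfl
      have h10 : ∑ y : F, (κ ((y : G)⁻¹ * g * y * g⁻¹))⁻¹ = 0 := by
        by_contra hs
        apply h5
        have h11 := mul_right_cancel₀ hs (h8.symm.trans (one_mul _).symm)
        rw [← inv_inv (κ _), h11, inv_one]
      rw [h10, B.e0 g hgK]
      simp
  · have h1 : ∀ y : F, a.coeff ((y : G)⁻¹ * g * y) = 0 := by
      intro y
      apply ha.1
      intro h
      apply hgF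
      have := F.mul_mem (F.mul_mem y.2 h) (F.inv_mem y.2)
      have e : (y : G) * ((y : G)⁻¹ * g * y) * (y : G)⁻¹ = g := by group
      rwa [e] at this
    have hgK : g ∉ K := fun h => hgF (hP.le h)
    simp [h1, B.e0 g hgK]

end Pool.Agent.Lib.MPbe1941.RP
end

section
/-!
# MP_be1941_al, block RP, module BAS: the idempotent `e` and the algebra `A = e ℂ[F]`
-/
set_option autoImplicit false

namespace Pool.Agent.Lib.MPbe1941.RP.BASM

open Pool.Agent.Lib.MPbe1941

variable {G : Type} [Group G]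

theorem coeff_u_mul (k : G) (a : MonoidAlgebra ℂ G) (g : G) :
    (u k * a).coeff g = a.coeff (k⁻¹ * g) := by
  rw [u, MonoidAlgebra.coeff_single_mul_apply, one_mul]

theorem coeff_mul_u (k : G) (a : MonoidAlgebra ℂ G) (g : G) :
    (a * u k).coeff g = a.coeff (g * k⁻¹) := by
  rw [u, MonoidAlgebra.coeff_mul_single_apply, mul_one]

theorem u_mul_u (g h : G) : u g * u h = u (g * h) := by
  rw [u, u, MonoidAlgebra.single_mul_single, one_mul]

theorem decomp [Fintype G] (a : MonoidAlgebra ℂ G) : a = ∑ g, a.coeff g • u g := by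
  classical
  ext h
  rw [MonoidAlgebra.coeff_sum, Finsupp.finsetSum_apply]
  simp [Finsupp.single_apply]

theorem mul_eq [Fintype G] (a b : MonoidAlgebra ℂ G) : a * b = ∑ g, a.coeff g • (u g * b) := by
  conv_lhs => rw [decomp a]
  rw [Finset.sum_mul]
  simp only [smul_mul_assoc]

theorem coeff_mul_eq [Fintype G] (a b : MonoidAlgebra ℂ G) (h : G) :
    (a * b).coeff h = ∑ g, a.coeff g * b.coeff (g⁻¹ * h) := by
  rw [mul_eq, MonoidAlgebra.coeff_sum, Finsupp.finsetSum_apply]
  refine Finset.sum_congr rfl fun g _ => ?_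
  rw [MonoidAlgebra.coeff_smul_apply, coeff_u_mul, smul_eq_mul]

section

variable {F K : Subgroup G} {κ : G → ℂ}

theorem kk (h : IsPair F K κ) : ∀ k ∈ K, κ k * κ k⁻¹ = 1 := by
  intro k hk
  rw [← h.mul k hk _ (K.inv_mem hk), mul_inv_cancel, h.one]

theorem ne (h : IsPair F K κ) : ∀ k ∈ K, κ k ≠ 0 := by
  intro k hk h0
  have := kk h k hk
  rw [h0, zero_mul] at this
  exact zero_ne_one this

theorem kinv (h : IsPair F K κ) : ∀ k ∈ K, κ k⁻¹ = (κ k)⁻¹ := fun k hk =>
  eq_inv_of_mul_eq_one_right (kk h k hk)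

theorem eK_eq [Finite G] (K : Subgroup G) [Fintype K] (κ : G → ℂ) :
    eK K κ = (Nat.card K : ℂ)⁻¹ • ∑ x : K, (κ x)⁻¹ • u (x : G) := by
  rw [eK, finsum_eq_sum_of_fintype]
  congr 1
  apply Finset.sum_congr rfl
  intro x _
  rw [u, MonoidAlgebra.smul_single, smul_eq_mul, mul_one]

theorem coeff_eK [Finite G] (K : Subgroup G) (κ : G → ℂ) (g : G) [Decidable (g ∈ K)] :
    (eK K κ).coeff g = if g ∈ K then (Nat.card K : ℂ)⁻¹ * (κ g)⁻¹ else 0 := by
  classical
  have := Fintype.ofFinite G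
  rw [eK_eq, MonoidAlgebra.coeff_smul_apply, MonoidAlgebra.coeff_sum, Finsupp.finsetSum_apply]
  simp only [MonoidAlgebra.coeff_smul_apply, MonoidAlgebra.coeff_single, Finsupp.single_apply,
    smul_eq_mul, mul_ite, mul_one, mul_zero]
  split_ifs with hg
  · rw [Finset.sum_eq_single ⟨g, hg⟩]
    · rw [if_pos rfl]
    · intro b _ hb
      rw [if_neg fun h => hb (Subtype.ext h)]
    · intro h
      exact absurd (Finset.mem_univ _) h
  · rw [Finset.sum_eq_zero, mul_zero]
    intro x _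
    rw [if_neg]
    rintro rfl
    exact hg x.2

theorem e1 [Finite G] (K : Subgroup G) (κ : G → ℂ) : ∀ g ∈ K,
    (eK K κ).coeff g = (Nat.card K : ℂ)⁻¹ * (κ g)⁻¹ := by
  classical
  intro g hg
  rw [coeff_eK, if_pos hg]

theorem e0 [Finite G] (K : Subgroup G) (κ : G → ℂ) : ∀ g, g ∉ K → (eK K κ).coeff g = 0 := by
  classical
  intro g hg
  rw [coeff_eK, if_neg hg]

theorem ke [Finite G] (h : IsPair F K κ) : ∀ k ∈ K, u k * eK K κ = κ k • eK K κ := by
  intro k hk
  ext g
  rw [coeff_u_mul, MonoidAlgebra.coeff_smul_apply, smul_eq_mul]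
  by_cases hg : g ∈ K
  · rw [e1 K κ _ (K.mul_mem (K.inv_mem hk) hg), e1 K κ _ hg, h.mul _ (K.inv_mem hk) _ hg,
      kinv h k hk, mul_inv, inv_inv]
    ring
  · rw [e0 K κ g hg, e0 K κ, mul_zero]
    intro h'
    apply hg
    have := K.mul_mem hk h'
    rwa [mul_inv_cancel_left] at this

theorem eA [Finite G] (h : IsPair F K κ) : InA F K κ (eK K κ) :=
  ⟨fun g hg => e0 K κ g fun hk => hg (h.le hk), ke h⟩

theorem el [Finite G] (h : IsPair F K κ) : ∀ a, InA F K κ a → eK K κ * a = a := by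
  classical
  intro a ha
  have := Fintype.ofFinite G
  rw [eK_eq, smul_mul_assoc, Finset.sum_mul]
  have h1 : ∀ x : K, (κ x)⁻¹ • u (x : G) * a = a := by
    intro x
    rw [smul_mul_assoc, ha.2 x x.2, smul_smul, inv_mul_cancel₀ (ne h x x.2), one_smul]
  rw [Finset.sum_congr rfl fun x _ => h1 x, Finset.sum_const, Finset.card_univ,
    ← Nat.card_eq_fintype_card, ← Nat.cast_smul_eq_nsmul ℂ, smul_smul, inv_mul_cancel₀, one_smul]
  exact Nat.cast_ne_zero.2 Nat.card_pos.ne'

theorem fmul (g h : G) (hg : FixK K κ g) (hh : FixK K κ h) : FixK K κ (g * h) := by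
  intro x hx
  have h1 := hh x hx
  have h2 := hg _ h1.1
  have e : g * h * x * (g * h)⁻¹ = g * (h * x * h⁻¹) * g⁻¹ := by group
  rw [e]
  exact ⟨h2.1, h2.2.trans h1.2⟩

theorem finv [Finite G] (g : G) (hg : FixK K κ g) : FixK K κ g⁻¹ := by
  intro x hx
  let f : K → K := fun y => ⟨g * y * g⁻¹, (hg y y.2).1⟩
  have hf : Function.Injective f := by
    intro y z hyz
    have : g * (y : G) * g⁻¹ = g * z * g⁻¹ := congrArg Subtype.val hyz
    exact Subtype.ext (mul_left_cancel (mul_right_cancel this))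
  obtain ⟨y, hy⟩ := Finite.surjective_of_injective hf ⟨x, hx⟩
  have hy' : g * (y : G) * g⁻¹ = x := congrArg Subtype.val hy
  have e : g⁻¹ * x * g⁻¹⁻¹ = y := by rw [← hy']; group
  rw [e]
  refine ⟨y.2, ?_⟩
  rw [← (hg y y.2).2, hy']

theorem ce [Finite G] (g : G) (hg : FixK K κ g) : u g * eK K κ = eK K κ * u g := by
  ext h
  rw [coeff_u_mul, coeff_mul_u]
  have e : h * g⁻¹ = g * (g⁻¹ * h) * g⁻¹ := by group
  by_cases hz : g⁻¹ * h ∈ K
  · have h1 := hg _ hz
    rw [e, e1 K κ _ hz, e1 K κ _ h1.1, h1.2]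
  · rw [e0 K κ _ hz, e0 K κ]
    intro h1
    apply hz
    have h2 := finv g hg _ h1
    have e' : g⁻¹ * (h * g⁻¹) * g⁻¹⁻¹ = g⁻¹ * h := by group
    rw [← e']
    exact h2.1

theorem er [Finite G] (h : IsPair F K κ) : ∀ a, InA F K κ a → a * eK K κ = a := by
  classical
  intro a ha
  have := Fintype.ofFinite G
  have h1 : a * eK K κ = eK K κ * a := by
    rw [mul_eq]
    conv_rhs => rw [decomp a]
    rw [Finset.mul_sum]
    refine Finset.sum_congr rfl fun g _ => ?_
    by_cases hg : g ∈ F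
    · rw [ce g (h.inv g hg), mul_smul_comm]
    · rw [ha.1 g hg, zero_smul, zero_smul, mul_zero]
  rw [h1, el h a ha]

theorem co (h : IsPair F K κ) : ∀ a, InA F K κ a → ∀ k ∈ K, ∀ g,
    a.coeff (k * g) = (κ k)⁻¹ * a.coeff g := by
  intro a ha k hk g
  have h1 := ha.2 k⁻¹ (K.inv_mem hk)
  have h2 := congrArg (fun b : MonoidAlgebra ℂ G => b.coeff g) h1
  simp only [coeff_u_mul, MonoidAlgebra.coeff_smul_apply, smul_eq_mul, inv_inv] at h2
  rw [h2, kinv h k hk]

theorem smulA (c : ℂ) (a : MonoidAlgebra ℂ G) (ha : InA F K κ a) : InA F K κ (c • a) := by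
  refine ⟨fun g hg => ?_, fun k hk => ?_⟩
  · rw [MonoidAlgebra.coeff_smul_apply, ha.1 g hg, smul_zero]
  · rw [mul_smul_comm, ha.2 k hk, smul_comm]

theorem addA (a b : MonoidAlgebra ℂ G) (ha : InA F K κ a) (hb : InA F K κ b) :
    InA F K κ (a + b) := by
  refine ⟨fun g hg => ?_, fun k hk => ?_⟩
  · rw [MonoidAlgebra.coeff_add, Finsupp.add_apply, ha.1 g hg, hb.1 g hg, add_zero]
  · rw [mul_add, ha.2 k hk, hb.2 k hk, smul_add]

theorem mulA [Finite G] (a b : MonoidAlgebra ℂ G) (ha : InA F K κ a) (hb : InA F K κ b) :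
    InA F K κ (a * b) := by
  classical
  have := Fintype.ofFinite G
  refine ⟨fun g hg => ?_, fun k hk => ?_⟩
  · rw [coeff_mul_eq]
    refine Finset.sum_eq_zero fun x _ => ?_
    by_cases hx : x ∈ F
    · rw [hb.1, mul_zero]
      intro h'
      apply hg
      have := F.mul_mem hx h'
      rwa [mul_inv_cancel_left] at this
    · rw [ha.1 x hx, zero_mul]
  · rw [← mul_assoc, ha.2 k hk, smul_mul_assoc]

theorem lmul (h : IsPair F K κ) : ∀ f ∈ F, ∀ a, InA F K κ a → InA F K κ (u f * a) := by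
  intro f hf a ha
  refine ⟨fun g hg => ?_, fun k hk => ?_⟩
  · rw [coeff_u_mul, ha.1]
    intro h'
    apply hg
    have := F.mul_mem hf h'
    rwa [mul_inv_cancel_left] at this
  · have h1 := h.inv _ (F.inv_mem hf) k hk
    have e : u k * (u f * a) = u f * (u (f⁻¹ * k * f⁻¹⁻¹) * a) := by
      rw [← mul_assoc, ← mul_assoc, u_mul_u, u_mul_u]
      congr 2
      group
    rw [e, ha.2 _ h1.1, h1.2, mul_smul_comm]

theorem rmul : ∀ f ∈ F, ∀ a, InA F K κ a → InA F K κ (a * u f) := by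
  intro f hf a ha
  refine ⟨fun g hg => ?_, fun k hk => ?_⟩
  · rw [coeff_mul_u, ha.1]
    intro h'
    apply hg
    have := F.mul_mem h' hf
    rwa [inv_mul_cancel_right] at this
  · rw [← mul_assoc, ha.2 k hk, smul_mul_assoc]

/-- If `κ(z) = κ(g⁻¹ z g)` whenever both are defined, then `g` fixes `(K, κ)`. -/
theorem fix_of (h : IsPair F K κ) (g : G)
    (hg : ∀ z ∈ K, g⁻¹ * z * g ∈ K → κ z = κ (g⁻¹ * z * g)) : FixK K κ g := by
  have main : ∀ x ∈ K, g * x * g⁻¹ ∈ K := by
    intro x hx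
    by_contra hn
    have hF : g * x * g⁻¹ ∈ F := h.Fn.conj_mem x (h.le hx) g
    obtain ⟨y, hy, hne⟩ := h.nd _ hF hn
    apply hne
    have hz : g * x * g⁻¹ * y * (g * x * g⁻¹)⁻¹ * y⁻¹ ∈ K := h.comm _ hF y hy
    set y' := g⁻¹ * y * g with hy'
    have hy'F : y' ∈ F := by
      have := h.Fn.conj_mem y hy g⁻¹
      rwa [inv_inv] at this
    have h1 := h.inv y' hy'F x⁻¹ (K.inv_mem hx)
    have e : g⁻¹ * (g * x * g⁻¹ * y * (g * x * g⁻¹)⁻¹ * y⁻¹) * g = x * (y' * x⁻¹ * y'⁻¹) := by
      rw [hy']; group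
    have h2 : g⁻¹ * (g * x * g⁻¹ * y * (g * x * g⁻¹)⁻¹ * y⁻¹) * g ∈ K := by
      rw [e]; exact K.mul_mem hx h1.1
    rw [hg _ hz h2, e, h.mul _ hx _ h1.1, h1.2, kk h x hx]
  intro x hx
  refine ⟨main x hx, ?_⟩
  have e : g⁻¹ * (g * x * g⁻¹) * g = x := by group
  have := hg _ (main x hx) (by rw [e]; exact hx)
  rwa [e] at this

theorem ort [Finite G] (h : IsPair F K κ) :
    ∀ g, ¬ FixK K κ g → eK K κ * u g * eK K κ = 0 := by
  intro g hg
  have : ∃ z ∈ K, g⁻¹ * z * g ∈ K ∧ κ z ≠ κ (g⁻¹ * z * g) := by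
    by_contra hn
    push Not at hn
    exact hg (fix_of h g fun z hz hz' => hn z hz hz')
  obtain ⟨z, hz, hz', hne⟩ := this
  have h1 : κ z • (eK K κ * u g * eK K κ) = κ (g⁻¹ * z * g) • (eK K κ * u g * eK K κ) := by
    have hze : eK K κ * u z = κ z • eK K κ := by
      rw [← ce z (h.inv z (h.le hz)), ke h z hz]
    calc κ z • (eK K κ * u g * eK K κ) = (κ z • eK K κ) * u g * eK K κ := by
          rw [smul_mul_assoc, smul_mul_assoc]
      _ = eK K κ * (u z * u g) * eK K κ := by rw [← hze, mul_assoc (eK K κ) (u z)]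
      _ = eK K κ * (u g * u (g⁻¹ * z * g)) * eK K κ := by
          rw [u_mul_u, u_mul_u]
          congr 3
          group
      _ = eK K κ * u g * (u (g⁻¹ * z * g) * eK K κ) := by rw [← mul_assoc, mul_assoc _ _ (eK K κ)]
      _ = κ (g⁻¹ * z * g) • (eK K κ * u g * eK K κ) := by rw [ke h _ hz', mul_smul_comm]
  have h2 : (κ z - κ (g⁻¹ * z * g)) • (eK K κ * u g * eK K κ) = 0 := by
    rw [sub_smul, h1, sub_self]
  exact (smul_eq_zero.1 h2).resolve_left (sub_ne_zero.2 hne)

end

end Pool.Agent.Lib.MPbe1941.RP.BASM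

namespace Pool.Agent.Lib.MPbe1941.RP

theorem specBAS : SpecBAS := by
  intro G _ _ F K κ h
  exact
    { ne := BASM.ne h
      kinv := BASM.kinv h
      e1 := BASM.e1 K κ
      e0 := BASM.e0 K κ
      eA := BASM.eA h
      idem := BASM.el h _ (BASM.eA h)
      ke := BASM.ke h
      el := BASM.el h
      er := BASM.er h
      co := BASM.co h
      add := BASM.addA
      smul := BASM.smulA
      mul := BASM.mulA
      lmul := BASM.lmul h
      rmul := BASM.rmul
      fmul := BASM.fmul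
      finv := BASM.finv
      ce := BASM.ce
      ort := BASM.ort h }

end Pool.Agent.Lib.MPbe1941.RP
end

section
/-!
# MP_be1941_al, block RP, module CEN
-/
set_option autoImplicit false

namespace Pool.Agent.Lib.MPbe1941.RP

open Pool.Agent.Lib.MPbe1941

theorem specCEN (hAVG : SpecAVG) : SpecCEN := by
  intro G _ _ F K κ hp a ha hc
  classical
  have hF : (Nat.card F : ℂ) ≠ 0 := by exact_mod_cast Nat.card_pos.ne'
  have h := hAVG G F K κ hp a ha
  have e : ∀ y : F, u (y : G) * a * u ((y : G)⁻¹) = a := by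
    intro y
    rw [hc y y.2, mul_assoc]
    have : u (y : G) * u ((y : G)⁻¹) = (1 : MonoidAlgebra ℂ G) := by
      rw [MonoidAlgebra.single_mul_single, mul_inv_cancel, one_mul]
      rfl
    rw [this, mul_one]
  rw [finsum_congr e] at h
  have : Fintype F := Fintype.ofFinite F
  rw [finsum_eq_sum_of_fintype, Finset.sum_const, Finset.card_univ, ← Nat.card_eq_fintype_card]
    at h
  refine ⟨(Nat.card K : ℂ) * a.coeff 1, ?_⟩
  have h2 : (Nat.card F : ℂ) • a = (Nat.card F : ℂ) • (((Nat.card K : ℂ) * a.coeff 1) • eK K κ) := by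
    rw [smul_smul, ← mul_assoc, ← h, Nat.cast_smul_eq_nsmul]
  have h3 := congrArg (fun b => (Nat.card F : ℂ)⁻¹ • b) h2
  simpa [smul_smul, hF] using h3

end Pool.Agent.Lib.MPbe1941.RP
end

section
/-!
# MP_be1941_al, block RP, module DET
-/
set_option autoImplicit false

namespace Pool.Agent.Lib.MPbe1941.RP

open Pool.Agent.Lib.MPbe1941

namespace DETM

section

variable {G : Type} [Group G] [Finite G] {F K : Subgroup G} {κ : G → ℂ}

omit [Finite G] in
theorem coeff_u_mul (g h : G) (a : MonoidAlgebra ℂ G) : (u g * a).coeff h = a.coeff (g⁻¹ * h) := by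
  have := MonoidAlgebra.coeff_single_mul_eq_mul_coeff (r := (1 : ℂ)) (x := a) (m := g) (m₁ := h)
    (g⁻¹ * h) (fun m' _ => ⟨fun e => by rw [← e]; group, fun e => by rw [e]; group⟩)
  rw [this, one_mul]

/-- the subspace `A` -/
def AS (hB : Bas F K κ) : Submodule ℂ (MonoidAlgebra ℂ G) where
  carrier := {a | InA F K κ a}
  add_mem' := fun {a b} ha hb => hB.add a b ha hb
  zero_mem' := ⟨fun g _ => by simp, fun k _ => by simp⟩
  smul_mem' := fun c a ha => hB.smul c a ha

/-- left multiplication on `A` -/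
noncomputable def L (hB : Bas F K κ) (t : MonoidAlgebra ℂ G) (ht : InA F K κ t) : AS hB →ₗ[ℂ] AS hB where
  toFun := fun a => ⟨t * a.1, hB.mul t a.1 ht a.2⟩
  map_add' := fun a b => Subtype.ext (by simp [mul_add])
  map_smul' := fun c a => Subtype.ext (by simp)

/-- `mk` -/
noncomputable def q (F K : Subgroup G) (g : G) (hg : g ∈ F) : F ⧸ K.subgroupOf F :=
  QuotientGroup.mk (⟨g, hg⟩ : F)

/-- representative -/
noncomputable def o (F K : Subgroup G) (x : F ⧸ K.subgroupOf F) : G := (x.out : F)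

omit [Finite G] in
theorem o_mem (x : F ⧸ K.subgroupOf F) : o F K x ∈ F := x.out.2

omit [Finite G] in
theorem q_o (x : F ⧸ K.subgroupOf F) : q F K (o F K x) (o_mem x) = x := by
  unfold q o
  have : (⟨((x.out : F) : G), x.out.2⟩ : F) = x.out := rfl
  rw [this]
  exact Quotient.out_eq' x

omit [Finite G] in
theorem oq (hp : IsPair F K κ) (g : G) (hg : g ∈ F) : g * (o F K (q F K g hg))⁻¹ ∈ K := by
  have h1 : (q F K g hg).out⁻¹ * (⟨g, hg⟩ : F) ∈ K.subgroupOf F := by
    rw [← QuotientGroup.eq]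
    exact Quotient.out_eq' _
  rw [Subgroup.mem_subgroupOf] at h1
  have h2 := (hp.inv _ (o_mem (q F K g hg)) _ h1).1
  have e : o F K (q F K g hg) * (((q F K g hg).out⁻¹ * (⟨g, hg⟩ : F) : F) : G) *
      (o F K (q F K g hg))⁻¹ = g * (o F K (q F K g hg))⁻¹ := by
    unfold o
    simp
  rw [e] at h2
  exact h2

omit [Finite G] in
theorem q_mul (hp : IsPair F K κ) (g k : G) (hg : g ∈ F) (hk : k ∈ K) (hkg : k * g ∈ F) :
    q F K (k * g) hkg = q F K g hg := by
  unfold q
  rw [QuotientGroup.eq, Subgroup.mem_subgroupOf]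
  have h := (hp.inv g⁻¹ (F.inv_mem hg) k⁻¹ (K.inv_mem hk)).1
  have e : (((⟨k * g, hkg⟩ : F)⁻¹ * (⟨g, hg⟩ : F) : F) : G) = g⁻¹ * k⁻¹ * g⁻¹⁻¹ := by
    simp only [Subgroup.coe_mul, Subgroup.coe_inv]
    group
  rw [e]; exact h

open scoped Classical in
/-- the values of the element of `A` with given values at the representatives -/
noncomputable def val (F K : Subgroup G) (κ : G → ℂ) (f : F ⧸ K.subgroupOf F → ℂ) (g : G) : ℂ :=
  if hg : g ∈ F then (κ (g * (o F K (q F K g hg))⁻¹))⁻¹ * f (q F K g hg) else 0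

/-- the element of `A` with given values at the representatives -/
noncomputable def el (F K : Subgroup G) (κ : G → ℂ) (f : F ⧸ K.subgroupOf F → ℂ) :
    MonoidAlgebra ℂ G :=
  MonoidAlgebra.ofCoeff (Finsupp.equivFunOnFinite.symm (val F K κ f))

theorem el_coeff (f : F ⧸ K.subgroupOf F → ℂ) (g : G) :
    (el F K κ f).coeff g = val F K κ f g := by
  unfold el
  rw [MonoidAlgebra.coeff_ofCoeff]
  rfl

theorem el_mem (hp : IsPair F K κ) (hB : Bas F K κ) (f : F ⧸ K.subgroupOf F → ℂ) :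
    InA F K κ (el F K κ f) := by
  constructor
  · intro g hg
    rw [el_coeff, val, dif_neg hg]
  · intro k hk
    apply MonoidAlgebra.ext
    ext g
    rw [coeff_u_mul, MonoidAlgebra.coeff_smul, Finsupp.smul_apply, el_coeff, el_coeff, smul_eq_mul]
    have hki := K.inv_mem hk
    by_cases hg : g ∈ F
    · have hkg : k⁻¹ * g ∈ F := F.mul_mem (hp.le hki) hg
      rw [val, val, dif_pos hg, dif_pos hkg, q_mul hp g k⁻¹ hg hki hkg]
      have h1 := oq hp g hg
      rw [mul_assoc, hp.mul _ hki _ h1, hB.kinv k hk]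
      rw [mul_inv, inv_inv, mul_assoc]
    · have hkg : k⁻¹ * g ∉ F := fun h => hg (by
        have := F.mul_mem (hp.le hk) h
        simpa using this)
      rw [val, val, dif_neg hg, dif_neg hkg, mul_zero]

omit [Finite G] in
theorem val_o (hp : IsPair F K κ) (f : F ⧸ K.subgroupOf F → ℂ) (x : F ⧸ K.subgroupOf F) :
    val F K κ f (o F K x) = f x := by
  rw [val, dif_pos (o_mem x), q_o, mul_inv_cancel, hp.one, inv_one, one_mul]

/-- `A` is the space of functions on `F / K` -/
noncomputable def eqv (hp : IsPair F K κ) (hB : Bas F K κ) :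
    AS hB ≃ₗ[ℂ] (F ⧸ K.subgroupOf F → ℂ) where
  toFun := fun a x => a.1.coeff (o F K x)
  map_add' := fun a b => by ext x; simp
  map_smul' := fun c a => by ext x; simp
  invFun := fun f => ⟨el F K κ f, el_mem hp hB f⟩
  left_inv := by
    intro a
    apply Subtype.ext
    apply MonoidAlgebra.ext
    ext g
    rw [el_coeff, val]
    split_ifs with hg
    · have h1 := oq hp g hg
      have h2 := hB.co a.1 a.2 _ h1 (o F K (q F K g hg))
      rw [inv_mul_cancel_right] at h2
      exact h2.symm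
    · exact (a.2.1 g hg).symm
  right_inv := by
    intro f
    ext x
    change (el F K κ f).coeff (o F K x) = f x
    rw [el_coeff, val_o hp]

theorem finrank_A (hp : IsPair F K κ) (hB : Bas F K κ) :
    Module.finrank ℂ (AS hB) = K.relIndex F := by
  classical
  have : Fintype (F ⧸ K.subgroupOf F) := Fintype.ofFinite _
  rw [LinearEquiv.finrank_eq (eqv hp hB), Module.finrank_fintype_fun_eq_card,
    Subgroup.relIndex, Subgroup.index, Nat.card_eq_fintype_card]

end

end DETM

open DETM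

theorem specDET (hBAS : SpecBAS) : SpecDET := by
  classical
  intro G _ _ F K κ hp
  have hB := hBAS G F K κ hp
  refine ⟨fun t => if ht : InA F K κ t then LinearMap.det (L hB t ht) else 0, ?_, ?_, ?_⟩
  · beta_reduce
    rw [dif_pos hB.eA]
    have : L hB (eK K κ) hB.eA = LinearMap.id := by
      ext a
      exact congrArg (fun b : MonoidAlgebra ℂ G => b.coeff _) (hB.el a.1 a.2)
    rw [this, LinearMap.det_id]
  · intro s t hs ht
    beta_reduce
    rw [dif_pos hs, dif_pos ht, dif_pos (hB.mul s t hs ht), ← LinearMap.det_comp]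
    congr 1
    apply LinearMap.ext
    intro a
    exact Subtype.ext (mul_assoc s t a.1)
  · intro c t ht
    beta_reduce
    rw [dif_pos ht, dif_pos (hB.smul c t ht), ← finrank_A hp hB, ← LinearMap.det_smul]
    congr 1
    apply LinearMap.ext
    intro a
    exact Subtype.ext (smul_mul_assoc c t a.1)

end Pool.Agent.Lib.MPbe1941.RP
end

section
/-!
# MP_be1941_al, block RP, module DIV: the degree divides the group order
-/
set_option autoImplicit false

namespace Pool.Agent.Lib.MPbe1941.RP.DIVM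

open Pool.Agent.Lib.MPbe1941

variable {G : Type} [Group G] {V : Type} [AddCommGroup V] [Module ℂ V] [FiniteDimensional ℂ V]

/-- The trace of an endomorphism of finite order is an algebraic integer. -/
theorem trace_integral (f : Module.End ℂ V) (N : ℕ) (hN : N ≠ 0) (hf : f ^ N = 1) :
    IsIntegral ℤ (LinearMap.trace ℂ V f) := by
  rw [Module.End.trace_eq_sum_roots_charpoly_of_splits (IsAlgClosed.splits _)]
  refine IsIntegral.multiset_sum fun x hx => ?_
  have hx' : f.HasEigenvalue x := by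
    rw [Module.End.hasEigenvalue_iff_isRoot_charpoly]
    exact Polynomial.isRoot_of_mem_roots hx
  obtain ⟨v, hv⟩ := hx'.exists_hasEigenvector
  have h1 : (f ^ N) v = x ^ N • v := hv.pow_apply N
  rw [hf, Module.End.one_apply] at h1
  have h2 : x ^ N = 1 := by
    have h3 : (x ^ N - 1) • v = 0 := by rw [sub_smul, ← h1, one_smul, sub_self]
    exact sub_eq_zero.1 ((smul_eq_zero.1 h3).resolve_right hv.2)
  exact IsIntegral.of_pow (Nat.pos_of_ne_zero hN) (h2 ▸ isIntegral_one)

theorem char_integral [Finite G] (ρ : Representation ℂ G V) (g : G) :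
    IsIntegral ℤ (ρ.character g) := by
  apply trace_integral (ρ g) (Nat.card G) Nat.card_pos.ne'
  rw [← map_pow, pow_card_eq_one', map_one]

/-- Schur. -/
theorem schur (ρ : Representation ℂ G V) (h : ρ.IsIrreducible) (z : V →ₗ[ℂ] V)
    (hz : ∀ g, z ∘ₗ ρ g = ρ g ∘ₗ z) : ∃ c : ℂ, z = c • LinearMap.id := by
  have := h
  let f : Representation.IntertwiningMap ρ ρ := { z with isIntertwining' := hz }
  obtain ⟨c, hc⟩ :=
    (Representation.IsIrreducible.algebraMap_intertwiningMap_bijective_of_isAlgClosed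
      (ρ := ρ)).2 f
  refine ⟨c, ?_⟩
  ext v
  have h1 : f v = (algebraMap ℂ (Representation.IntertwiningMap ρ ρ) c) v := by rw [hc]
  change f v = _
  rw [h1]
  rfl

omit [FiniteDimensional ℂ V] in
theorem integral_of (ρ : Representation ℂ G V) [Fintype G] [Nontrivial V] (x : G → ℂ)
    (hx : ∀ g, IsIntegral ℤ (x g)) (c : ℂ)
    (h : ∑ g, x g • ρ g = c • (LinearMap.id : V →ₗ[ℂ] V)) : IsIntegral ℤ c := by
  let A := integralClosure ℤ ℂ
  let X : MonoidAlgebra A G := ∑ g, MonoidAlgebra.single g (⟨x g, hx g⟩ : A)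
  have hX : IsIntegral A X := IsIntegral.of_finite A X
  let φ : MonoidAlgebra A G →ₐ[A] Module.End ℂ V := MonoidAlgebra.lift A (Module.End ℂ V) G ρ
  have h1 : φ X = algebraMap ℂ (Module.End ℂ V) c := by
    have h2 : φ X = ∑ g, x g • ρ g := by
      simp only [X, φ, map_sum, MonoidAlgebra.lift_single]
      rfl
    rw [h2, h]
    rfl
  have h3 : IsIntegral A (algebraMap ℂ (Module.End ℂ V) c) := h1 ▸ hX.map φ
  have h4 : IsIntegral A c :=
    (isIntegral_algebraMap_iff (FaithfulSMul.algebraMap_injective ℂ (Module.End ℂ V))).1 h3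
  exact isIntegral_trans c h4

omit [FiniteDimensional ℂ V] in
theorem comm_z [Fintype G] (ρ : Representation ℂ G V) (h : G) :
    (∑ g, ρ.character g⁻¹ • ρ g) ∘ₗ ρ h = ρ h ∘ₗ (∑ g, ρ.character g⁻¹ • ρ g) := by
  change (∑ g, ρ.character g⁻¹ • ρ g) * ρ h = ρ h * (∑ g, ρ.character g⁻¹ • ρ g)
  rw [Finset.sum_mul, Finset.mul_sum]
  refine Fintype.sum_equiv (MulAut.conj h⁻¹).toEquiv _ _ fun g => ?_
  have e : (MulAut.conj h⁻¹).toEquiv g = h⁻¹ * g * h := by simp
  rw [e, smul_mul_assoc, mul_smul_comm, ← map_mul, ← map_mul]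
  have e1 : (h⁻¹ * g * h)⁻¹ = h⁻¹ * g⁻¹ * h⁻¹⁻¹ := by group
  have e2 : h * (h⁻¹ * g * h) = g * h := by group
  rw [e1, e2, ρ.char_conj]

end Pool.Agent.Lib.MPbe1941.RP.DIVM

namespace Pool.Agent.Lib.MPbe1941.RP

theorem specDIV : SpecDIV := by
  intro G _ _ V _ _ _ ρ hρ
  classical
  have := Fintype.ofFinite G
  have := hρ
  have hnt : Nontrivial V := IsSimpleModule.nontrivial (MonoidAlgebra ℂ G) ρ.asModule
  obtain ⟨c, hc⟩ := DIVM.schur ρ hρ _ (DIVM.comm_z ρ)
  have hint : IsIntegral ℤ c := DIVM.integral_of ρ _ (fun g => DIVM.char_integral ρ g⁻¹) c hc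
  have hN : (Nat.card G : ℂ) ≠ 0 := Nat.cast_ne_zero.2 Nat.card_pos.ne'
  have hn : (Module.finrank ℂ V : ℂ) ≠ 0 := Nat.cast_ne_zero.2 Module.finrank_pos.ne'
  have htr : c * (Module.finrank ℂ V : ℂ) = (Nat.card G : ℂ) := by
    have h1 := congrArg (LinearMap.trace ℂ V) hc
    rw [map_sum, map_smul, LinearMap.trace_id, smul_eq_mul] at h1
    rw [← h1]
    have : Invertible (Nat.card G : ℂ) := invertibleOfNonzero hN
    have h2 := Representation.card_inv_mul_sum_char_mul_char_eq_finrank ρ ρ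
    rw [Representation.IsIrreducible.finrank_intertwiningMap_self, Nat.cast_one] at h2
    have h3 : ∑ g, ρ.character g * ρ.character g⁻¹ = (Nat.card G : ℂ) := by
      have := congrArg (fun t => (Nat.card G : ℂ) * t) h2
      simpa [mul_inv_cancel_left₀ hN] using this
    rw [← h3]
    refine Finset.sum_congr rfl fun g _ => ?_
    rw [map_smul, smul_eq_mul, mul_comm]
    rfl
  have hc' : c = algebraMap ℚ ℂ ((Nat.card G : ℚ) / (Module.finrank ℂ V : ℚ)) := by
    rw [map_div₀, map_natCast, map_natCast, eq_div_iff hn, htr]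
  rw [hc', isIntegral_algebraMap_iff (algebraMap ℚ ℂ).injective,
    IsIntegrallyClosed.isIntegral_iff] at hint
  obtain ⟨y, hy⟩ := hint
  have hn' : (Module.finrank ℂ V : ℚ) ≠ 0 := Nat.cast_ne_zero.2 Module.finrank_pos.ne'
  rw [eq_div_iff hn'] at hy
  have hy' : y * (Module.finrank ℂ V : ℤ) = (Nat.card G : ℤ) := by
    have : ((y * (Module.finrank ℂ V : ℤ) : ℤ) : ℚ) = ((Nat.card G : ℤ) : ℚ) := by
      push_cast
      exact hy
    exact_mod_cast this
  exact Int.natCast_dvd_natCast.1 ⟨y, by rw [← hy', mul_comm]⟩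

end Pool.Agent.Lib.MPbe1941.RP
end

section
/-!
# MP_be1941_al, block RP, module DSQ
-/
set_option autoImplicit false

namespace Pool.Agent.Lib.MPbe1941.RP

open Pool.Agent.Lib.MPbe1941

namespace DSQM

open Representation

theorem main {F : Type} [Group F] [Finite F] (K : Subgroup F) (κ : F → ℂ) {V : Type}
    [AddCommGroup V] [Module ℂ V] [FiniteDimensional ℂ V] (σ : Representation ℂ F V)
    (h1 : ∀ x ∈ K, σ x = κ x • (1 : V →ₗ[ℂ] V)) (h2 : ∀ x ∈ K, κ x * κ x⁻¹ = 1)
    (h3 : ∀ x, x ∉ K → ∃ y, x * y * x⁻¹ * y⁻¹ ∈ K ∧ κ (x * y * x⁻¹ * y⁻¹) ≠ 1) :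
    K.index ∣ Module.finrank ℂ V ^ 2 := by
  classical
  have : Fintype F := Fintype.ofFinite F
  have hne : (Nat.card F : ℂ) ≠ 0 := by
    exact_mod_cast Nat.card_pos.ne'
  have : Invertible (Nat.card F : ℂ) := invertibleOfNonzero hne
  have hK : ∀ x ∈ K, σ.character x = κ x * Module.finrank ℂ V := by
    intro x hx
    rw [Representation.character, h1 x hx, map_smul, LinearMap.trace_one, smul_eq_mul]
  have hn : ∀ x, x ∉ K → σ.character x = 0 := by
    intro x hx
    obtain ⟨y, hy, hy2⟩ := h3 x hx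
    set c := x * y * x⁻¹ * y⁻¹ with hc
    have hci : c⁻¹ ∈ K := K.inv_mem hy
    have e1 : y * x * y⁻¹ = c⁻¹ * x := by rw [hc]; group
    have e2 : σ.character (y * x * y⁻¹) = κ c⁻¹ * σ.character x := by
      rw [e1, Representation.character, map_mul, h1 _ hci, smul_mul_assoc, one_mul, map_smul,
        smul_eq_mul]
      rfl
    rw [Representation.char_conj] at e2
    have e3 : (1 - κ c⁻¹) * σ.character x = 0 := by
      rw [sub_mul, one_mul, ← e2, sub_self]
    rcases mul_eq_zero.1 e3 with h | h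
    · exfalso
      apply hy2
      have := h2 c hy
      have h' : κ c⁻¹ = 1 := (sub_eq_zero.1 h).symm
      rw [h', mul_one] at this
      exact this
    · exact h
  have hs : ∑ g : F, σ.character g * σ.character g⁻¹ =
      (Nat.card K : ℂ) * (Module.finrank ℂ V : ℂ) ^ 2 := by
    have e : ∀ g : F, σ.character g * σ.character g⁻¹ =
        if g ∈ K then (Module.finrank ℂ V : ℂ) ^ 2 else 0 := by
      intro g
      by_cases hg : g ∈ K
      · rw [if_pos hg, hK g hg, hK _ (K.inv_mem hg)]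
        calc κ g * Module.finrank ℂ V * (κ g⁻¹ * Module.finrank ℂ V)
            = κ g * κ g⁻¹ * (Module.finrank ℂ V : ℂ) ^ 2 := by ring
          _ = _ := by rw [h2 g hg, one_mul]
      · rw [if_neg hg, hn g hg, zero_mul]
    rw [Finset.sum_congr rfl fun g _ => e g, Finset.sum_ite, Finset.sum_const_zero, add_zero,
      Finset.sum_const, nsmul_eq_mul]
    congr 2
    rw [Nat.card_eq_fintype_card, Fintype.card_subtype]
  have hm := Representation.card_inv_mul_sum_char_mul_char_eq_finrank σ σ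
  rw [hs] at hm
  have h5 : (Nat.card K : ℂ) * (Module.finrank ℂ V : ℂ) ^ 2 =
      Nat.card F * (Module.finrank ℂ (IntertwiningMap σ σ) : ℂ) := by
    rw [← hm, ← mul_assoc, mul_inv_cancel₀ hne, one_mul]
  have h6 : Nat.card K * Module.finrank ℂ V ^ 2 =
      Nat.card F * Module.finrank ℂ (IntertwiningMap σ σ) := by exact_mod_cast h5
  rw [← K.card_mul_index, mul_assoc] at h6
  have h7 := Nat.eq_of_mul_eq_mul_left Nat.card_pos h6
  exact ⟨_, h7⟩

end DSQM

theorem specDSQ (hBAS : SpecBAS) : SpecDSQ := by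
  intro G _ _ F K κ hp V _ _ _ ρ
  have hB := hBAS G F K κ hp
  have hs : ∀ g : G, ρ.asAlgebraHom (u g) = ρ g := fun g =>
    Representation.asAlgebraHom_single_one ρ g
  have hst : ∀ f : F, ∀ v ∈ LinearMap.range (ρ.asAlgebraHom (eK K κ)),
      ρ (f : G) v ∈ LinearMap.range (ρ.asAlgebraHom (eK K κ)) := by
    rintro f v ⟨w, rfl⟩
    refine ⟨ρ (f : G) w, ?_⟩
    have h := hB.ce (f : G) (hp.inv _ f.2)
    have h2 := congrArg (fun a => ρ.asAlgebraHom a w) h
    simp only [map_mul, hs, Module.End.mul_apply] at h2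
    exact h2.symm
  let σ : Representation ℂ F (LinearMap.range (ρ.asAlgebraHom (eK K κ))) :=
    { toFun := fun f => (ρ (f : G)).restrict (hst f)
      map_one' := by
        ext v
        simp
      map_mul' := by
        intro x y
        ext v
        simp }
  have hmain := DSQM.main (K.subgroupOf F) (fun x => κ (x : G)) σ ?_ ?_ ?_
  · exact hmain
  · intro x hx
    rw [Subgroup.mem_subgroupOf] at hx
    ext ⟨v, w, rfl⟩
    have h := hB.ke (x : G) hx
    have h2 := congrArg (fun a => ρ.asAlgebraHom a w) h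
    simp only [map_mul, hs, Module.End.mul_apply, map_smul, LinearMap.smul_apply] at h2
    simpa [σ] using h2
  · intro x hx
    rw [Subgroup.mem_subgroupOf] at hx
    have h := hp.mul x hx (x : G)⁻¹ (K.inv_mem hx)
    rw [mul_inv_cancel, hp.one] at h
    simpa using h.symm
  · intro x hx
    rw [Subgroup.mem_subgroupOf] at hx
    obtain ⟨y, hy, hy2⟩ := hp.nd x x.2 hx
    refine ⟨⟨y, hy⟩, ?_, ?_⟩
    · rw [Subgroup.mem_subgroupOf]
      simpa using hp.comm x x.2 y hy
    · simpa using hy2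

end Pool.Agent.Lib.MPbe1941.RP
end

section
/-!
# MP_be1941_al, block RP, module EIG (helper60)
-/
set_option autoImplicit false

namespace Pool.Agent.Lib.MPbe1941.RP

open Pool.Agent.Lib.MPbe1941

namespace EIGM

theorem aux {G : Type} [Group G] (P : Subgroup G) (hP : ∀ x ∈ P, ∀ y ∈ P, x * y = y * x)
    {V : Type} [AddCommGroup V] [Module ℂ V] [FiniteDimensional ℂ V]
    (ρ : Representation ℂ G V) :
    ∀ (n : ℕ) (W : Submodule ℂ V), Module.finrank ℂ W = n → W ≠ ⊥ →
      (∀ x ∈ P, ∀ w ∈ W, ρ x w ∈ W) → ∃ v : V, v ≠ 0 ∧ ∀ x ∈ P, ∃ c : ℂ, ρ x v = c • v := by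
  intro n
  induction n using Nat.strong_induction_on with
  | _ n ih =>
    intro W hn hW hinv
    by_cases hsc : ∀ x ∈ P, ∃ c : ℂ, ∀ w ∈ W, ρ x w = c • w
    · obtain ⟨v, hv, hv0⟩ := Submodule.exists_mem_ne_zero_of_ne_bot hW
      exact ⟨v, hv0, fun x hx => (hsc x hx).imp fun c hc => hc v hv⟩
    · push Not at hsc
      obtain ⟨x, hx, hxc⟩ := hsc
      have hnt : Nontrivial W := Submodule.nontrivial_iff_ne_bot.2 hW
      obtain ⟨c, hc⟩ := Module.End.exists_eigenvalue ((ρ x).restrict (hinv x hx))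
      obtain ⟨w, hw⟩ := hc.exists_hasEigenvector
      have hw1 : ρ x (w : V) = c • (w : V) := by
        have h1 := hw.apply_eq_smul
        exact congrArg Subtype.val h1
      have hw0 : (w : V) ≠ 0 := fun h => hw.2 (Subtype.ext h)
      obtain ⟨w', hw', hne⟩ := hxc c
      let W' : Submodule ℂ V := W ⊓ LinearMap.ker (ρ x - c • LinearMap.id)
      have hmem : ∀ v, v ∈ W' ↔ v ∈ W ∧ ρ x v = c • v := by
        intro v
        rw [Submodule.mem_inf, LinearMap.mem_ker, LinearMap.sub_apply, LinearMap.smul_apply,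
          LinearMap.id_apply, sub_eq_zero]
      have hlt : W' < W := by
        refine lt_of_le_of_ne inf_le_left fun h => hne ?_
        have h2 : w' ∈ W' := by
          rw [h]
          exact hw'
        exact ((hmem w').1 h2).2
      have hne' : W' ≠ ⊥ := by
        intro h
        have h2 : (w : V) ∈ W' := (hmem _).2 ⟨w.2, hw1⟩
        rw [h, Submodule.mem_bot] at h2
        exact hw0 h2
      refine ih (Module.finrank ℂ W') (hn ▸ Submodule.finrank_lt_finrank_of_lt hlt) W' rfl hne' ?_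
      intro y hy v hv
      rw [hmem] at hv ⊢
      refine ⟨hinv y hy v hv.1, ?_⟩
      calc ρ x (ρ y v) = ρ (x * y) v := by rw [map_mul]; rfl
        _ = ρ (y * x) v := by rw [hP x hx y hy]
        _ = ρ y (ρ x v) := by rw [map_mul]; rfl
        _ = c • ρ y v := by rw [hv.2, map_smul]

end EIGM

open EIGM in
/-- **EIG**. -/
theorem specEIG : SpecEIG := by
  intro G _ _ P hP V _ _ _ _ ρ
  obtain ⟨v, hv, hc⟩ := aux P hP ρ _ ⊤ rfl top_ne_bot (fun x _ w _ => Submodule.mem_top)
  choose! lam hlam using hc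
  refine ⟨lam, v, hv, ?_, ?_, hlam⟩
  · have h1 := hlam 1 P.one_mem
    rw [map_one] at h1
    have h2 : (1 : ℂ) • v = lam 1 • v := by
      rw [one_smul]
      exact h1
    exact (smul_left_injective ℂ hv h2).symm
  · intro x hx y hy
    have h1 := hlam (x * y) (P.mul_mem hx hy)
    have h2 : ρ (x * y) v = (lam x * lam y) • v := by
      rw [map_mul]
      show ρ x (ρ y v) = _
      rw [hlam y hy, map_smul, hlam x hx, smul_smul, mul_comm]
    rw [h2] at h1
    exact (smul_left_injective ℂ hv h1).symm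

end Pool.Agent.Lib.MPbe1941.RP
end

section
/-!
# MP_be1941_al, block REP-A: module EPS (from BAS, UOP)
-/
set_option autoImplicit false

namespace Pool.Agent.Lib.MPbe1941.RP

open Pool.Agent.Lib.MPbe1941

namespace EPSM

theorem u_mul {G : Type} [Group G] (g h : G) :
    (u (g * h) : MonoidAlgebra ℂ G) = u g * u h := by
  simp [u, MonoidAlgebra.single_mul_single]

/-- the stabiliser of `(K, κ)` in `H` -/
def JJ {G : Type} [Group G] {F K : Subgroup G} {κ : G → ℂ} (B : Bas F K κ) (H : Subgroup G) :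
    Subgroup G where
  carrier := {h | h ∈ H ∧ FixK K κ h}
  mul_mem' := fun ha hb => ⟨H.mul_mem ha.1 hb.1, B.fmul _ _ ha.2 hb.2⟩
  one_mem' := ⟨H.one_mem, fun x hx => by simpa using hx⟩
  inv_mem' := fun ha => ⟨H.inv_mem ha.1, B.finv _ ha.2⟩

end EPSM

open EPSM in
theorem specEPS (hBAS : SpecBAS) (hUOP : SpecUOP) : SpecEPS := by
  intro G _ _ F K κ hP H E β hFH hcop hEH hEab hEfix hEn hβ1 hβm
  have B := hBAS G F K κ hP
  have hJH : JJ B H ≤ H := fun x hx => hx.1
  have hEJ : E ≤ JJ B H := fun x hx => ⟨hEH hx, hEfix x hx⟩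
  obtain ⟨U, hU1, hUm, hUF, hUJ, hU0⟩ := hUOP G F K κ hP (JJ B H) (fun j hj => hj.2)
    (hcop.coprime_dvd_right (Subgroup.card_dvd_of_le hJH))
    (eq_bot_iff.2 (hFH ▸ inf_le_inf_left F hJH))
  have hβ0 : ∀ a ∈ E, β a ≠ 0 := by
    intro a ha h
    have h1 := hβm a ha a⁻¹ (E.inv_mem ha)
    rw [mul_inv_cancel, hβ1, h, zero_mul] at h1
    exact one_ne_zero h1
  have : Fintype E := Fintype.ofFinite E
  have hcE : (Nat.card E : ℂ) ≠ 0 := by
    have : Nat.card E ≠ 0 := Nat.card_pos.ne'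
    exact_mod_cast this
  have hcK : (Nat.card K : ℂ) ≠ 0 := by
    have : Nat.card K ≠ 0 := Nat.card_pos.ne'
    exact_mod_cast this
  set ε : MonoidAlgebra ℂ G := (Nat.card E : ℂ)⁻¹ • ∑ a : E, (β a)⁻¹ • U a with hε
  -- multiplication by `U b`
  have hbε : ∀ b ∈ E, U b * ε = β b • ε := by
    intro b hb
    rw [hε, mul_smul_comm, smul_comm (β b)]
    congr 1
    rw [Finset.mul_sum, Finset.smul_sum]
    refine Fintype.sum_equiv (Equiv.mulLeft (⟨b, hb⟩ : E)) _ _ fun a => ?_
    change U b * ((β a)⁻¹ • U a) = β b • ((β (b * a))⁻¹ • U (b * a))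
    rw [mul_smul_comm, ← hUm b (hEJ hb) a (hEJ a.2), smul_smul, hβm b hb a a.2, mul_inv,
      ← mul_assoc, mul_inv_cancel₀ (hβ0 b hb), one_mul]
  have hεb : ∀ b ∈ E, ε * U b = β b • ε := by
    intro b hb
    rw [hε, smul_mul_assoc, smul_comm (β b)]
    congr 1
    rw [Finset.sum_mul, Finset.smul_sum]
    refine Fintype.sum_equiv (Equiv.mulRight (⟨b, hb⟩ : E)) _ _ fun a => ?_
    change ((β a)⁻¹ • U a) * U b = β b • ((β (a * b))⁻¹ • U (a * b))
    rw [smul_mul_assoc, ← hUm a (hEJ a.2) b (hEJ hb), smul_smul, hβm a a.2 b hb, mul_inv,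
      mul_comm (β a)⁻¹, ← mul_assoc, mul_inv_cancel₀ (hβ0 b hb), one_mul]
  have hidem : ε * ε = ε := by
    conv_lhs => rw [hε]
    rw [smul_mul_assoc, Finset.sum_mul]
    have h1 : ∀ a : E, (β a)⁻¹ • U a * ε = ε := by
      intro a
      rw [smul_mul_assoc, hbε a a.2, smul_smul, inv_mul_cancel₀ (hβ0 a a.2), one_smul]
    rw [Finset.sum_congr rfl fun a _ => h1 a, Finset.sum_const, Finset.card_univ,
      ← Nat.card_eq_fintype_card, ← Nat.cast_smul_eq_nsmul ℂ, smul_smul, inv_mul_cancel₀ hcE,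
      one_smul]
  have hel : eK K κ * ε = ε := by
    rw [← hU1, hbε 1 E.one_mem, hβ1, one_smul]
  have her : ε * eK K κ = ε := by
    rw [← hU1, hεb 1 E.one_mem, hβ1, one_smul]
  have hFε : ∀ y ∈ F, u y * ε = ε * u y := by
    intro y hy
    rw [hε, mul_smul_comm, smul_mul_assoc, Finset.mul_sum, Finset.sum_mul]
    congr 1
    refine Finset.sum_congr rfl fun a _ => ?_
    rw [mul_smul_comm, smul_mul_assoc, hUF a (hEJ a.2) y hy]
  have hne : ε ≠ 0 := by
    intro h
    have h1 : ε.coeff 1 = (Nat.card E : ℂ)⁻¹ * (Nat.card K : ℂ)⁻¹ := by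
      have h2 : (∑ a : E, (β a)⁻¹ • U a).coeff 1 = (Nat.card K : ℂ)⁻¹ := by
        rw [MonoidAlgebra.coeff_sum, Finsupp.finsetSum_apply, Finset.sum_eq_single (1 : E)]
        · rw [MonoidAlgebra.coeff_smul, Finsupp.smul_apply, OneMemClass.coe_one, hU1,
            B.e1 1 K.one_mem, hβ1, hP.one]
          simp
        · intro a _ ha
          rw [MonoidAlgebra.coeff_smul, Finsupp.smul_apply, hU0 a (hEJ a.2) (by
            intro h3
            exact ha (Subtype.ext h3)), smul_zero]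
        · intro h3
          exact absurd (Finset.mem_univ _) h3
      rw [hε, MonoidAlgebra.coeff_smul, Finsupp.smul_apply, h2, smul_eq_mul]
    rw [h] at h1
    simp only [MonoidAlgebra.coeff_zero, Finsupp.coe_zero, Pi.zero_apply] at h1
    exact mul_ne_zero (inv_ne_zero hcE) (inv_ne_zero hcK) h1.symm
  refine ⟨ε, hne, hidem, hel, ?_, ?_⟩
  · intro y hy h hh hI
    have hJh : h ∈ JJ B H := ⟨hh, hI.1⟩
    have hhε : u h * ε = ε * u h := by
      rw [hε, mul_smul_comm, smul_mul_assoc, Finset.mul_sum, Finset.sum_mul]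
      congr 1
      have hinv : ∀ x ∈ E, h⁻¹ * x * h ∈ E := by
        intro x hx
        simpa using hEn h⁻¹ (H.inv_mem hh) (B.finv _ hI.1) x hx
      let φ : E ≃ E :=
        { toFun := fun a => ⟨h * a * h⁻¹, hEn h hh hI.1 a a.2⟩
          invFun := fun a => ⟨h⁻¹ * a * h, hinv a a.2⟩
          left_inv := fun a => Subtype.ext (by group)
          right_inv := fun a => Subtype.ext (by group) }
      refine Fintype.sum_equiv φ _ _ fun a => ?_
      change u h * ((β a)⁻¹ • U a) = (β (h * a * h⁻¹))⁻¹ • U (h * a * h⁻¹) * u h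
      rw [mul_smul_comm, smul_mul_assoc, hUJ a (hEJ a.2) h hJh, hI.2 a a.2]
    calc u (y * h) * ε = u y * (u h * ε) := by rw [u_mul, mul_assoc]
      _ = u y * ε * u h := by rw [hhε, mul_assoc]
      _ = ε * u (y * h) := by rw [hFε y hy, u_mul, mul_assoc]
  · intro y hy h hh hI
    by_cases hf : FixK K κ h
    · have hJh : h ∈ JJ B H := ⟨hh, hf⟩
      have hex : ∃ b ∈ E, β (h * b * h⁻¹) ≠ β b := by
        by_contra hcon
        push Not at hcon
        exact hI ⟨hf, hcon⟩
      obtain ⟨b, hb, hbne⟩ := hex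
      have hb' : h * b * h⁻¹ ∈ E := hEn h hh hf b hb
      have e1 : β b • (ε * u h * ε) = β (h * b * h⁻¹) • (ε * u h * ε) := by
        calc β b • (ε * u h * ε) = ε * u h * (U b * ε) := by
              rw [hbε b hb, mul_smul_comm (β b) (ε * u h) ε]
          _ = ε * (u h * U b) * ε := by simp only [mul_assoc]
          _ = (ε * U (h * b * h⁻¹)) * u h * ε := by
              rw [hUJ b (hEJ hb) h hJh]; simp only [mul_assoc]
          _ = β (h * b * h⁻¹) • (ε * u h * ε) := by
              rw [hεb _ hb', smul_mul_assoc, smul_mul_assoc]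
      have e2 : ε * u h * ε = 0 := by
        have e3 : (β b - β (h * b * h⁻¹)) • (ε * u h * ε) = 0 := by
          rw [sub_smul, e1, sub_self]
        rcases smul_eq_zero.1 e3 with h4 | h4
        · exact absurd (sub_eq_zero.1 h4).symm hbne
        · exact h4
      calc ε * u (y * h) * ε = (ε * u y) * u h * ε := by rw [u_mul]; simp only [mul_assoc]
        _ = u y * (ε * u h * ε) := by rw [← hFε y hy]; simp only [mul_assoc]
        _ = 0 := by rw [e2, mul_zero]
    · have hf2 : ¬ FixK K κ (y * h) := by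
        intro h1
        apply hf
        have h2 := B.fmul _ _ (hP.inv _ (F.inv_mem hy)) h1
        rwa [inv_mul_cancel_left] at h2
      calc ε * u (y * h) * ε = (ε * eK K κ) * u (y * h) * (eK K κ * ε) := by rw [hel, her]
        _ = ε * (eK K κ * u (y * h) * eK K κ) * ε := by simp only [mul_assoc]
        _ = 0 := by rw [B.ort _ hf2, mul_zero, zero_mul]

end Pool.Agent.Lib.MPbe1941.RP
end

section
/-!
# MP_be1941_al, block RP, module FDR (helper60)
-/
set_option autoImplicit false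

namespace Pool.Agent.Lib.MPbe1941.RP

open Pool.Agent.Lib.MPbe1941
open Module

namespace FDRM

section
variable {G : Type} [Group G]

/-- transport along a basis -/
theorem exists_fin {V : Type} [AddCommGroup V] [Module ℂ V] [FiniteDimensional ℂ V]
    (ρ : Representation ℂ G V) :
    ∃ σ : Representation ℂ G (Fin (finrank ℂ V) → ℂ), ρ.character = σ.character := by
  let e : V ≃ₗ[ℂ] (Fin (finrank ℂ V) → ℂ) := (finBasis ℂ V).equivFun
  let σ : Representation ℂ G (Fin (finrank ℂ V) → ℂ) :=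
    { toFun := fun h => e.toLinearMap ∘ₗ ρ h ∘ₗ e.symm.toLinearMap
      map_one' := by
        rw [map_one]
        refine LinearMap.ext fun x => ?_
        simp
      map_mul' := fun g h => by
        rw [map_mul]
        refine LinearMap.ext fun x => ?_
        simp [Module.End.mul_apply] }
  refine ⟨σ, funext fun h => ?_⟩
  change LinearMap.trace ℂ V (ρ h) =
    LinearMap.trace ℂ _ (e.toLinearMap ∘ₗ ρ h ∘ₗ e.symm.toLinearMap)
  have h1 := LinearMap.trace_conj' (ρ h) e
  rw [← h1]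
  rfl

theorem card_ne [Finite G] : (Nat.card G : ℂ) ≠ 0 := by
  have : 0 < Nat.card G := Nat.card_pos
  exact_mod_cast this.ne'

theorem sum_char [Fintype G] {V : Type} [AddCommGroup V] [Module ℂ V] [FiniteDimensional ℂ V]
    (ρ : Representation ℂ G V) : ∑ h, ρ.character h * ρ.character h⁻¹ =
      Nat.card G * finrank ℂ (Representation.IntertwiningMap ρ ρ) := by
  have : Invertible (Nat.card G : ℂ) := invertibleOfNonzero card_ne
  rw [← Representation.card_inv_mul_sum_char_mul_char_eq_finrank, mul_inv_cancel_left₀ card_ne]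

/-- a representation is irreducible iff its endomorphisms are scalars -/
theorem irr_iff [Finite G] {V : Type} [AddCommGroup V] [Module ℂ V] [FiniteDimensional ℂ V]
    (ρ : Representation ℂ G V) :
    ρ.IsIrreducible ↔ finrank ℂ (Representation.IntertwiningMap ρ ρ) = 1 := by
  constructor
  · intro h
    exact Representation.IsIrreducible.finrank_intertwiningMap_self ρ
  · intro h
    have hid : (Representation.IntertwiningMap.id ρ) ≠ 0 := by
      intro h0
      have h2 : ∀ f : Representation.IntertwiningMap ρ ρ, f = 0 := by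
        intro f
        refine Representation.IntertwiningMap.ext (LinearMap.ext fun x => ?_)
        have h3 : x = 0 := by
          have := congrArg (fun T : Representation.IntertwiningMap ρ ρ => T x) h0
          simpa using this
        rw [h3, map_zero, map_zero]
      have h4 : Subsingleton (Representation.IntertwiningMap ρ ρ) :=
        ⟨fun a b => by rw [h2 a, h2 b]⟩
      rw [finrank_zero_iff.2 h4] at h
      exact zero_ne_one h
    have hsc := (finrank_eq_one_iff_of_nonzero' _ hid).1 h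
    have hnt : Nontrivial V := by
      by_contra hcon
      rw [not_nontrivial_iff_subsingleton] at hcon
      apply hid
      exact Representation.IntertwiningMap.ext (LinearMap.ext fun x => Subsingleton.elim _ _)
    have hnt2 : Nontrivial (Subrepresentation ρ) := by
      refine ⟨⊥, ⊤, fun h0 => ?_⟩
      have h1 : (⊥ : Submodule ℂ V) = ⊤ := congrArg Subrepresentation.toSubmodule h0
      exact bot_ne_top h1
    refine { hnt2 with eq_bot_or_eq_top := fun K => ?_ }
    have : NeZero (Nat.card G : ℂ) := ⟨card_ne⟩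
    have hs : Representation.IsSemisimpleRepresentation ρ := inferInstance
    obtain ⟨K', hK'⟩ := exists_isCompl K
    have hc : IsCompl K.toSubmodule K'.toSubmodule := by
      rw [isCompl_iff, disjoint_iff, codisjoint_iff] at hK' ⊢
      refine ⟨?_, ?_⟩
      · rw [← Subrepresentation.toSubmodule_inf, hK'.1]
        rfl
      · rw [← Subrepresentation.toSubmodule_sup, hK'.2]
        rfl
    have hcomm : ∀ (g : G) (v : V), K.toSubmodule.projection K'.toSubmodule hc (ρ g v) =
        ρ g (K.toSubmodule.projection K'.toSubmodule hc v) := by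
      intro g v
      have hv : v ∈ K.toSubmodule ⊔ K'.toSubmodule := by
        rw [hc.sup_eq_top]
        trivial
      obtain ⟨a, ha, b, hb, rfl⟩ := Submodule.mem_sup.1 hv
      have h1 : ∀ x ∈ K.toSubmodule, K.toSubmodule.projection K'.toSubmodule hc x = x :=
        fun x hx => Submodule.projection_apply_left hc ⟨x, hx⟩
      have h2 : ∀ x ∈ K'.toSubmodule, K.toSubmodule.projection K'.toSubmodule hc x = 0 :=
        fun x hx => Submodule.projection_apply_right hc ⟨x, hx⟩
      rw [map_add, map_add, map_add, h1 a ha, h2 b hb, h1 _ (K.apply_mem_toSubmodule g ha),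
        h2 _ (K'.apply_mem_toSubmodule g hb), add_zero, add_zero]
    let π : Representation.IntertwiningMap ρ ρ :=
      LinearMap.intertwiningMap_of_isIntertwiningMap ρ ρ
        (K.toSubmodule.projection K'.toSubmodule hc) hcomm
    obtain ⟨c, hcπ⟩ := hsc π
    have hcx : ∀ x, c • x = K.toSubmodule.projection K'.toSubmodule hc x := by
      intro x
      have := congrArg (fun T : Representation.IntertwiningMap ρ ρ => T x) hcπ
      exact this
    by_cases hK : K.toSubmodule = ⊥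
    · left
      exact Subrepresentation.toSubmodule_injective hK
    · right
      obtain ⟨x, hx, hx0⟩ := Submodule.exists_mem_ne_zero_of_ne_bot hK
      have h1 := hcx x
      rw [Submodule.projection_apply_left hc ⟨x, hx⟩] at h1
      have h2 : c • x = (1 : ℂ) • x := by
        rw [one_smul]
        exact h1
      have h3 : c = 1 := smul_left_injective ℂ hx0 h2
      apply Subrepresentation.toSubmodule_injective
      apply (Submodule.eq_top_iff').2
      intro y
      have h4 := hcx y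
      rw [h3, one_smul] at h4
      rw [h4]
      exact (K.toSubmodule.projectionOnto K'.toSubmodule hc y).2

theorem irr_iff_sum [Fintype G] {V : Type} [AddCommGroup V] [Module ℂ V]
    [FiniteDimensional ℂ V] (ρ : Representation ℂ G V) :
    ρ.IsIrreducible ↔ ∑ h, ρ.character h * ρ.character h⁻¹ = Nat.card G := by
  rw [irr_iff, sum_char]
  constructor
  · intro h
    rw [h, Nat.cast_one, mul_one]
  · intro h
    have h1 : (Nat.card G : ℂ) * (finrank ℂ (Representation.IntertwiningMap ρ ρ) : ℂ) =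
        Nat.card G * 1 := by
      rw [mul_one]
      exact h
    have h2 := mul_left_cancel₀ card_ne h1
    exact_mod_cast h2

end

end FDRM

open FDRM in
/-- **FDR**. -/
theorem specFDR : SpecFDR := by
  intro G _ _ d
  have := Fintype.ofFinite G
  constructor
  · rintro ⟨ρ, hρ⟩
    refine ⟨FDRep.of ρ, ?_, ?_⟩
    · rw [FDRep.simple_iff_char_is_norm_one]
      exact (irr_iff_sum ρ).1 hρ
    · show finrank ℂ (Fin d → ℂ) = d
      simp
  · rintro ⟨V, hV, rfl⟩
    obtain ⟨σ, hσ⟩ := exists_fin V.ρ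
    refine ⟨σ, ?_⟩
    rw [irr_iff_sum, ← hσ]
    exact (FDRep.simple_iff_char_is_norm_one V).1 hV

end Pool.Agent.Lib.MPbe1941.RP
end

section
/-!
# MP_be1941_al, block REP-A: module HOM (from BAS, CEN, IMP, DET)
-/
set_option autoImplicit false

namespace Pool.Agent.Lib.MPbe1941.RP

open Pool.Agent.Lib.MPbe1941

namespace HOMM

variable {G : Type} [Group G] [Finite G] {F K : Subgroup G} {κ : G → ℂ}

theorem u_mul (g h : G) : (u (g * h) : MonoidAlgebra ℂ G) = u g * u h := by
  simp [u, MonoidAlgebra.single_mul_single]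

theorem e_ne (hP : IsPair F K κ) (B : Bas F K κ) : eK K κ ≠ 0 := by
  intro h
  have h1 := B.e1 1 K.one_mem
  rw [h, hP.one] at h1
  have h2 : (Nat.card K : ℂ) ≠ 0 := by
    have : Nat.card K ≠ 0 := Nat.card_pos.ne'
    exact_mod_cast this
  simp only [MonoidAlgebra.coeff_zero, Finsupp.coe_zero, Pi.zero_apply, inv_one, mul_one] at h1
  exact inv_ne_zero h2 h1.symm

theorem exists_m (N c : ℕ) (hN : N ≠ 0) (h : N.Coprime c) : ∃ m : ℕ, N ∣ m * c + 1 := by
  haveI : NeZero N := ⟨hN⟩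
  refine ⟨(-((ZMod.unitOfCoprime c h.symm)⁻¹ : (ZMod N)ˣ) : ZMod N).val, ?_⟩
  rw [← ZMod.natCast_eq_zero_iff]
  push_cast
  rw [ZMod.natCast_val, ZMod.cast_id]
  have h1 : (c : ZMod N) = ((ZMod.unitOfCoprime c h.symm : (ZMod N)ˣ) : ZMod N) := by
    rw [ZMod.coe_unitOfCoprime]
  rw [h1, neg_mul, Units.inv_mul]
  ring

theorem conj_left (hP : IsPair F K κ) {j : G} {t : MonoidAlgebra ℂ G}
    (h : ∀ y ∈ F, u (j * y * j⁻¹) * t = t * u y) {y : G} (hy : y ∈ F) :
    u y * t = t * u (j⁻¹ * y * j) := by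
  have hn := hP.Fn
  have h1 := h (j⁻¹ * y * j) (by simpa using hn.conj_mem y hy j⁻¹)
  rw [← h1]
  congr 2
  group

theorem conj_inv (hP : IsPair F K κ) (B : Bas F K κ) {j : G} {t t' : MonoidAlgebra ℂ G}
    (ht' : InA F K κ t') (h1 : t * t' = eK K κ) (h2 : t' * t = eK K κ)
    (h : ∀ y ∈ F, u (j * y * j⁻¹) * t = t * u y) {y : G} (hy : y ∈ F) :
    u y * t' = t' * u (j * y * j⁻¹) := by
  have hn := hP.Fn
  have hj : j * y * j⁻¹ ∈ F := hn.conj_mem y hy j
  have e1 : t' * (u (j * y * j⁻¹) * t) * t' = t' * (t * u y) * t' := by rw [h y hy]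
  have e2 : t' * (u (j * y * j⁻¹) * t) * t' = t' * u (j * y * j⁻¹) := by
    calc t' * (u (j * y * j⁻¹) * t) * t' = t' * (u (j * y * j⁻¹) * (t * t')) := by
          simp only [mul_assoc]
      _ = t' * (eK K κ * u (j * y * j⁻¹)) := by rw [h1, B.ce _ (hP.inv _ hj)]
      _ = t' * eK K κ * u (j * y * j⁻¹) := (mul_assoc _ _ _).symm
      _ = t' * u (j * y * j⁻¹) := by rw [B.er _ ht']
  have e3 : t' * (t * u y) * t' = u y * t' := by
    calc t' * (t * u y) * t' = t' * t * (u y * t') := by simp only [mul_assoc]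
      _ = eK K κ * u y * t' := by rw [h2, mul_assoc]
      _ = u y * (eK K κ * t') := by rw [← B.ce _ (hP.inv _ hy), mul_assoc]
      _ = u y * t' := by rw [B.el _ ht']
  rw [← e3, ← e1, e2]

/-- normalised choice -/
theorem norm_choice (hIMP : SpecIMP) (hP : IsPair F K κ) (B : Bas F K κ)
    (δ : MonoidAlgebra ℂ G → ℂ) (hδ1 : δ (eK K κ) = 1)
    (hδm : ∀ s t, InA F K κ s → InA F K κ t → δ (s * t) = δ s * δ t)
    (hδs : ∀ (c : ℂ) t, InA F K κ t → δ (c • t) = c ^ K.relIndex F * δ t)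
    (hN : K.relIndex F ≠ 0) (j : G) (hj : FixK K κ j) :
    ∃ t t', InA F K κ t ∧ InA F K κ t' ∧ t * t' = eK K κ ∧ t' * t = eK K κ ∧
      (∀ y ∈ F, u (j * y * j⁻¹) * t = t * u y) ∧ δ t = 1 := by
  obtain ⟨t, t', ht, ht', h1, h2, h3⟩ := hIMP G F K κ hP j hj
  have hd : δ t * δ t' = 1 := by rw [← hδm _ _ ht ht', h1, hδ1]
  have hd0 : δ t ≠ 0 := left_ne_zero_of_mul_eq_one hd
  obtain ⟨c, hc⟩ := IsAlgClosed.exists_pow_nat_eq (δ t)⁻¹ (Nat.pos_of_ne_zero hN)
  have hc0 : c ≠ 0 := by
    rintro rfl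
    rw [zero_pow hN] at hc
    exact inv_ne_zero hd0 hc.symm
  refine ⟨c • t, c⁻¹ • t', B.smul _ _ ht, B.smul _ _ ht', ?_, ?_, ?_, ?_⟩
  · rw [smul_mul_assoc, mul_smul_comm, smul_smul, mul_inv_cancel₀ hc0, one_smul, h1]
  · rw [smul_mul_assoc, mul_smul_comm, smul_smul, inv_mul_cancel₀ hc0, one_smul, h2]
  · intro y hy
    rw [mul_smul_comm, smul_mul_assoc, h3 y hy]
  · rw [hδs _ _ ht, hc, inv_mul_cancel₀ hd0]

end HOMM

open HOMM in
theorem specHOM (hBAS : SpecBAS) (hCEN : SpecCEN) (hIMP : SpecIMP) (hDET : SpecDET) : SpecHOM := by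
  intro G _ _ F K κ hP J hJ hcop
  have B := hBAS G F K κ hP
  obtain ⟨δ, hδ1, hδm, hδs⟩ := hDET G F K κ hP
  have hN : K.relIndex F ≠ 0 := Subgroup.index_ne_zero_of_finite
  have he := e_ne hP B
  have hch : ∀ j : J, ∃ t t', InA F K κ t ∧ InA F K κ t' ∧ t * t' = eK K κ ∧ t' * t = eK K κ ∧
      (∀ y ∈ F, u ((j : G) * y * (j : G)⁻¹) * t = t * u y) ∧ δ t = 1 := fun j =>
    norm_choice hIMP hP B δ hδ1 hδm hδs hN j (hJ j j.2)
  choose s s' hs hs' h1 h2 h3 h4 using hch
  have hs0 : ∀ j, s j ≠ 0 := by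
    intro j h
    apply he
    rw [← h1 j, h, zero_mul]
  -- the scalars
  have hg : ∀ j k : J, ∃ c : ℂ, s j * s k * s' (j * k) = c • eK K κ := by
    intro j k
    refine hCEN G F K κ hP _ (B.mul _ _ (B.mul _ _ (hs j) (hs k)) (hs' _)) ?_
    intro y hy
    have hn := hP.Fn
    have hy1 : (j : G)⁻¹ * y * j ∈ F := by simpa using hn.conj_mem y hy (j : G)⁻¹
    have hy2 : (k : G)⁻¹ * ((j : G)⁻¹ * y * j) * k ∈ F := by
      simpa using hn.conj_mem _ hy1 (k : G)⁻¹
    have e3 : ((j * k : J) : G) * ((k : G)⁻¹ * ((j : G)⁻¹ * y * j) * k) * ((j * k : J) : G)⁻¹ =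
        y := by
      push_cast
      group
    calc u y * (s j * s k * s' (j * k)) = (u y * s j) * s k * s' (j * k) := by
          simp only [mul_assoc]
      _ = s j * (u ((j : G)⁻¹ * y * j) * s k) * s' (j * k) := by
          rw [conj_left hP (h3 j) hy]; simp only [mul_assoc]
      _ = s j * s k * (u ((k : G)⁻¹ * ((j : G)⁻¹ * y * j) * k) * s' (j * k)) := by
          rw [conj_left hP (h3 k) hy1]; simp only [mul_assoc]
      _ = s j * s k * (s' (j * k) * u y) := by
          rw [conj_inv hP B (hs' _) (h1 _) (h2 _) (h3 (j * k)) hy2, e3]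
      _ = s j * s k * s' (j * k) * u y := by simp only [mul_assoc]
  choose g hg using hg
  have hmul : ∀ j k : J, s j * s k = g j k • s (j * k) := by
    intro j k
    calc s j * s k = s j * s k * eK K κ := by rw [B.er _ (B.mul _ _ (hs j) (hs k))]
      _ = s j * s k * s' (j * k) * s (j * k) := by rw [← h2 (j * k), mul_assoc, mul_assoc, mul_assoc]
      _ = g j k • s (j * k) := by rw [hg, smul_mul_assoc, B.el _ (hs _)]
  have hgN : ∀ j k, g j k ^ K.relIndex F = 1 := by
    intro j k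
    have e1 : δ (s j * s k) = 1 := by rw [hδm _ _ (hs j) (hs k), h4, h4, one_mul]
    rw [hmul, hδs _ _ (hs _), h4, mul_one] at e1
    exact e1
  have hg0 : ∀ j k, g j k ≠ 0 := by
    intro j k h
    have := hgN j k
    rw [h, zero_pow hN] at this
    exact zero_ne_one this
  have hcoc : ∀ j k l, g j k * g (j * k) l = g k l * g j (k * l) := by
    intro j k l
    have e1 : s j * s k * s l = (g j k * g (j * k) l) • s (j * k * l) := by
      rw [hmul, smul_mul_assoc, hmul, smul_smul]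
    have e2 : s j * s k * s l = (g k l * g j (k * l)) • s (j * k * l) := by
      rw [mul_assoc, hmul, mul_smul_comm, hmul, smul_smul, mul_assoc j k l]
    have e3 : (g j k * g (j * k) l - g k l * g j (k * l)) • s (j * k * l) = 0 := by
      rw [sub_smul, ← e1, ← e2, sub_self]
    rcases smul_eq_zero.1 e3 with h | h
    · exact sub_eq_zero.1 h
    · exact absurd h (hs0 _)
  haveI : Fintype J := Fintype.ofFinite J
  let γ : J → ℂ := fun j => ∏ l, g j l
  have hγ : ∀ j k, g j k ^ Nat.card J * γ (j * k) = γ k * γ j := by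
    intro j k
    have e1 : ∏ l : J, (g j k * g (j * k) l) = ∏ l : J, (g k l * g j (k * l)) :=
      Finset.prod_congr rfl fun l _ => hcoc j k l
    rw [Finset.prod_mul_distrib, Finset.prod_mul_distrib, Finset.prod_const, Finset.card_univ,
      ← Nat.card_eq_fintype_card] at e1
    have e2 : ∏ l : J, g j (k * l) = γ j :=
      Fintype.prod_equiv (Equiv.mulLeft k) _ _ (fun l => rfl)
    rw [e2] at e1
    exact e1
  have hγ0 : ∀ j, γ j ≠ 0 := fun j => Finset.prod_ne_zero_iff.2 fun l _ => hg0 j l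
  obtain ⟨m, q, hm⟩ := exists_m _ _ hN hcop
  have hgm : ∀ j k, g j k ^ (m * Nat.card J + 1) = 1 := by
    intro j k
    rw [hm, pow_mul, hgN, one_pow]
  let T : J → MonoidAlgebra ℂ G := fun j => γ j ^ m • s j
  have hT : ∀ j k, T (j * k) = T j * T k := by
    intro j k
    have e1 : T j * T k = (γ j ^ m * γ k ^ m * g j k) • s (j * k) := by
      change (γ j ^ m • s j) * (γ k ^ m • s k) = _
      rw [smul_mul_assoc, mul_smul_comm, hmul, smul_smul, smul_smul]
    have e2 : γ j ^ m * γ k ^ m * g j k = γ (j * k) ^ m := by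
      calc γ j ^ m * γ k ^ m * g j k = (γ k * γ j) ^ m * g j k := by rw [mul_pow]; ring
        _ = (g j k ^ Nat.card J * γ (j * k)) ^ m * g j k := by rw [hγ]
        _ = g j k ^ (m * Nat.card J + 1) * γ (j * k) ^ m := by
            rw [mul_pow, ← pow_mul, pow_succ, mul_comm (Nat.card J) m]; ring
        _ = γ (j * k) ^ m := by rw [hgm, one_mul]
    rw [e1, e2]
  have hTA : ∀ j, InA F K κ (T j) := fun j => B.smul _ _ (hs j)
  have hT1 : T 1 = eK K κ := by
    have e1 : T 1 * T 1 = T 1 := by rw [← hT, one_mul]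
    have e2 : T 1 * ((γ 1 ^ m)⁻¹ • s' 1) = eK K κ := by
      change (γ 1 ^ m • s 1) * ((γ 1 ^ m)⁻¹ • s' 1) = _
      rw [smul_mul_assoc, mul_smul_comm, smul_smul, mul_inv_cancel₀ (pow_ne_zero _ (hγ0 1)),
        one_smul, h1]
    calc T 1 = T 1 * eK K κ := (B.er _ (hTA 1)).symm
      _ = T 1 * T 1 * ((γ 1 ^ m)⁻¹ • s' 1) := by rw [mul_assoc, e2]
      _ = eK K κ := by rw [e1, e2]
  have hT3 : ∀ j : J, ∀ y ∈ F, u ((j : G) * y * (j : G)⁻¹) * T j = T j * u y := by
    intro j y hy
    change u ((j : G) * y * (j : G)⁻¹) * (γ j ^ m • s j) = (γ j ^ m • s j) * u y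
    rw [mul_smul_comm, smul_mul_assoc, h3 j y hy]
  classical
  refine ⟨fun x => if h : x ∈ J then T ⟨x, h⟩ else 0, ?_, ?_, ?_, ?_⟩
  · simp only [J.one_mem, dif_pos]
    exact hT1
  · intro j hj
    simp only [hj, dif_pos]
    exact hTA _
  · intro j hj k hk
    simp only [hj, hk, J.mul_mem hj hk, dif_pos]
    exact hT ⟨j, hj⟩ ⟨k, hk⟩
  · intro j hj y hy
    simp only [hj, dif_pos]
    exact hT3 ⟨j, hj⟩ y hy

end Pool.Agent.Lib.MPbe1941.RP
end

section
/-!
# MP_be1941_al, block RP: imprimitivity by an idempotent (IDM)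
-/
set_option autoImplicit false

namespace Pool.Agent.Lib.MPbe1941.RP.IDMM

open Pool.Agent.Lib.MPbe1941 Pool.Agent.Lib.MPbe1941.RP

/-- Schur's lemma. -/
theorem schur {G : Type} [Group G] {V : Type} [AddCommGroup V] [Module ℂ V]
    [FiniteDimensional ℂ V] (ρ : Representation ℂ G V) (hirr : ρ.IsIrreducible)
    (P : Module.End ℂ V) (hP : ∀ h, ρ h * P = P * ρ h) : ∃ c : ℂ, P = c • 1 := by
  have := hirr
  have hP' : ∀ g, P ∘ₗ ρ g = ρ g ∘ₗ P := fun g => (hP g).symm
  obtain ⟨c, hc⟩ := (Representation.IsIrreducible.algebraMap_intertwiningMap_bijective_of_isAlgClosed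
    (ρ := ρ)).surjective ⟨P, hP'⟩
  refine ⟨c, ?_⟩
  have h1 := congrArg Representation.IntertwiningMap.toLinearMap hc
  exact h1.symm

theorem spec : SpecIDM := by
  intro G _ _ V _ _ _ ρ hirr S ε hε hS hnS hne
  classical
  have := Fintype.ofFinite G
  set E := ρ.asAlgebraHom ε with hE
  have hEE : E * E = E := by rw [hE, ← map_mul, hε]
  have hu : ∀ g, ρ.asAlgebraHom (u g) = ρ g := fun g => ρ.asAlgebraHom_single_one g
  have hcom : ∀ g ∈ S, ρ g * E = E * ρ g := by
    intro g hg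
    rw [← hu g, hE, ← map_mul, ← map_mul, hS g hg]
  have hzero : ∀ g, g ∉ S → E * ρ g * E = 0 := by
    intro g hg
    rw [← hu g, hE, ← map_mul, ← map_mul, hnS g hg, map_zero]
  have hinv : ∀ g, ρ g * ρ g⁻¹ = 1 := by
    intro g
    rw [← map_mul, mul_inv_cancel, map_one]
  have hinv' : ∀ g, ρ g⁻¹ * ρ g = 1 := by
    intro g
    rw [← map_mul, inv_mul_cancel, map_one]
  let P : Module.End ℂ V := ∑ g : G, ρ g * E * ρ g⁻¹
  have hP : ∀ h, ρ h * P = P * ρ h := by
    intro h
    simp only [P, Finset.mul_sum, Finset.sum_mul]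
    refine Fintype.sum_equiv (Equiv.mulLeft h) _ _ fun g => ?_
    simp only [Equiv.coe_mulLeft, map_mul, mul_inv_rev]
    calc ρ h * (ρ g * E * ρ g⁻¹) = ρ h * ρ g * E * ρ g⁻¹ * 1 := by
          rw [mul_one, mul_assoc, mul_assoc, mul_assoc]
      _ = ρ h * ρ g * E * (ρ g⁻¹ * ρ h⁻¹) * ρ h := by
          rw [← hinv' h]; simp only [mul_assoc]
  obtain ⟨c, hc⟩ := schur ρ hirr P hP
  have hEP : E * P = (Nat.card S : ℂ) • E := by
    have h1 : ∀ g : G, E * (ρ g * E * ρ g⁻¹) = if g ∈ S then E else 0 := by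
      intro g
      split_ifs with hg
      · rw [hcom g hg, ← mul_assoc, ← mul_assoc, hEE, mul_assoc, hinv, mul_one]
      · rw [← mul_assoc, ← mul_assoc, hzero g hg, zero_mul]
    simp only [P, Finset.mul_sum, h1]
    rw [← Finset.sum_filter, Finset.sum_const, ← Nat.cast_smul_eq_nsmul ℂ]
    congr 2
    rw [Nat.card_eq_fintype_card, Fintype.card_subtype]
  have hcS : c = Nat.card S := by
    rw [hc, mul_smul_comm, mul_one] at hEP
    have h1 : (c - Nat.card S) • E = 0 := by rw [sub_smul, hEP, sub_self]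
    rcases smul_eq_zero.mp h1 with h | h
    · exact sub_eq_zero.mp h
    · exact absurd h hne
  have htr1 : LinearMap.trace ℂ V P = c * Module.finrank ℂ V := by
    rw [hc, map_smul, LinearMap.trace_one, smul_eq_mul]
  have htr2 : LinearMap.trace ℂ V P = Nat.card G * Module.finrank ℂ (LinearMap.range E) := by
    have h1 : ∀ g : G, LinearMap.trace ℂ V (ρ g * E * ρ g⁻¹) = LinearMap.trace ℂ V E := by
      intro g
      rw [LinearMap.trace_mul_comm, ← mul_assoc, hinv', one_mul]
    have h2 : LinearMap.trace ℂ V E = Module.finrank ℂ (LinearMap.range E) := by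
      have h3 : IsIdempotentElem E := hEE
      exact (LinearMap.IsIdempotentElem.isProj_range E h3).trace
    simp only [P, map_sum, h1, Finset.sum_const, Finset.card_univ, nsmul_eq_mul, h2,
      Nat.card_eq_fintype_card]
  have h : ((Module.finrank ℂ V * Nat.card S : ℕ) : ℂ) =
      ((Nat.card G * Module.finrank ℂ (LinearMap.range E) : ℕ) : ℂ) := by
    push_cast
    rw [← htr2, htr1, hcS, mul_comm]
  exact_mod_cast h

end Pool.Agent.Lib.MPbe1941.RP.IDMM

namespace Pool.Agent.Lib.MPbe1941.RP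

theorem specIDM : SpecIDM := IDMM.spec

end Pool.Agent.Lib.MPbe1941.RP
end

section
/-!
# IMP: conjugation by an element fixing the pair is inner on `A`
-/
set_option autoImplicit false

namespace Pool.Agent.Lib.MPbe1941.RP

open Pool.Agent.Lib.MPbe1941

namespace IMPM

variable {G : Type} [Group G]

theorem u_mul (g h : G) : u g * u h = u (g * h) := by
  rw [u, u, u, MonoidAlgebra.single_mul_single, one_mul]

theorem coeff_um (g h : G) (a : MonoidAlgebra ℂ G) :
    (u g * a).coeff h = a.coeff (g⁻¹ * h) := by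
  rw [u, MonoidAlgebra.coeff_single_mul_apply, one_mul]

theorem coeff_mu (g h : G) (a : MonoidAlgebra ℂ G) :
    (a * u g).coeff h = a.coeff (h * g⁻¹) := by
  rw [u, MonoidAlgebra.coeff_mul_single_apply, mul_one]

theorem zero_mem {F K : Subgroup G} {κ : G → ℂ} : InA F K κ 0 :=
  ⟨fun g _ => by simp, fun k _ => by simp⟩

theorem sum_mem {ι : Type} {F K : Subgroup G} {κ : G → ℂ} (hB : Bas F K κ) (s : Finset ι)
    (f : ι → MonoidAlgebra ℂ G) (hf : ∀ i, InA F K κ (f i)) : InA F K κ (∑ i ∈ s, f i) := by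
  classical
  induction s using Finset.induction_on with
  | empty => rw [Finset.sum_empty]; exact zero_mem
  | insert i s hi ih =>
    rw [Finset.sum_insert hi]
    exact hB.add _ _ (hf i) ih

/-- the twisted average -/
noncomputable def T (F : Subgroup G) [Fintype F] (j : G) (b : MonoidAlgebra ℂ G) :
    MonoidAlgebra ℂ G :=
  ∑ x : F, u (j * (x : G) * j⁻¹) * b * u ((x : G)⁻¹)

theorem T_mem {F K : Subgroup G} [Fintype F] {κ : G → ℂ} (hP : IsPair F K κ) (hB : Bas F K κ)
    (j : G) (b : MonoidAlgebra ℂ G) (hb : InA F K κ b) : InA F K κ (T F j b) := by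
  refine sum_mem hB _ _ fun x => ?_
  exact hB.rmul _ (F.inv_mem x.2) _ (hB.lmul _ (hP.Fn.conj_mem _ x.2 j) _ hb)

theorem T_comm (F : Subgroup G) [Fintype F] (j : G) (b : MonoidAlgebra ℂ G) (y : G) (hy : y ∈ F) :
    u (j * y * j⁻¹) * T F j b = T F j b * u y := by
  unfold T
  rw [Finset.mul_sum, Finset.sum_mul]
  refine Fintype.sum_equiv (Equiv.mulLeft (⟨y, hy⟩ : F)) _ _ fun x => ?_
  have e1 : ((Equiv.mulLeft (⟨y, hy⟩ : F) x : F) : G) = y * x := rfl
  rw [e1]
  have e2 : u (j * y * j⁻¹) * (u (j * (x : G) * j⁻¹) * b * u ((x : G)⁻¹)) =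
      (u (j * y * j⁻¹) * u (j * (x : G) * j⁻¹)) * b * u ((x : G)⁻¹) := by
    simp only [mul_assoc]
  have e3 : u (j * (y * (x : G)) * j⁻¹) * b * u ((y * (x : G))⁻¹) * u y =
      u (j * (y * (x : G)) * j⁻¹) * b * (u ((y * (x : G))⁻¹) * u y) := by
    simp only [mul_assoc]
  have e4 : j * y * j⁻¹ * (j * (x : G) * j⁻¹) = j * (y * (x : G)) * j⁻¹ := by group
  have e5 : (y * (x : G))⁻¹ * y = (x : G)⁻¹ := by group
  rw [e2, e3, u_mul, u_mul, e4, e5]

theorem eK_ne [Finite G] {F K : Subgroup G} {κ : G → ℂ} (hP : IsPair F K κ) (hB : Bas F K κ) :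
    eK K κ ≠ 0 := by
  intro h
  have h1 := hB.e1 1 K.one_mem
  rw [h, hP.one] at h1
  have h2 : (Nat.card K : ℂ) ≠ 0 := by
    exact_mod_cast (Nat.card_pos (α := K)).ne'
  simp at h1
  exact h2 (by exact_mod_cast h1.symm)

theorem exists_ne [Finite G] {F K : Subgroup G} [Fintype F] {κ : G → ℂ} (hP : IsPair F K κ)
    (hB : Bas F K κ)
    (hAVG : ∀ a, InA F K κ a → ∑ y : F, u (y : G) * a * u ((y : G)⁻¹) =
      ((Nat.card F : ℂ) * (Nat.card K : ℂ) * a.coeff 1) • eK K κ)
    (j : G) (hj : FixK K κ j) : ∃ b, InA F K κ b ∧ T F j b ≠ 0 := by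
  classical
  by_contra hcon
  push Not at hcon
  have hF0 : (Nat.card F : ℂ) ≠ 0 := by exact_mod_cast (Nat.card_pos (α := F)).ne'
  have hK0 : (Nat.card K : ℂ) ≠ 0 := by exact_mod_cast (Nat.card_pos (α := K)).ne'
  have h0 : ∑ z : F, T F j (eK K κ * u (z : G)) * u ((z : G)⁻¹) = 0 := by
    refine Finset.sum_eq_zero fun z _ => ?_
    rw [hcon _ (hB.rmul _ z.2 _ hB.eA), zero_mul]
  have h1 : ∑ z : F, T F j (eK K κ * u (z : G)) * u ((z : G)⁻¹) =
      ∑ x : F, u (j * (x : G) * j⁻¹) * ∑ z : F, u (z : G) * (eK K κ * u ((x : G)⁻¹)) *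
        u ((z : G)⁻¹) := by
    unfold T
    simp only [Finset.sum_mul, Finset.mul_sum]
    rw [Finset.sum_comm]
    refine Finset.sum_congr rfl fun x _ => Finset.sum_congr rfl fun z _ => ?_
    have e1 : u (z : G) * eK K κ = eK K κ * u (z : G) := hB.ce _ (hP.inv _ z.2)
    rw [← mul_assoc (u (z : G)) (eK K κ), e1]
    have e2 : u (j * (x : G) * j⁻¹) * (eK K κ * u (z : G)) * u ((x : G)⁻¹) * u ((z : G)⁻¹) =
        u (j * (x : G) * j⁻¹) * (eK K κ * (u (z : G) * u ((x : G)⁻¹) * u ((z : G)⁻¹))) := by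
      simp only [mul_assoc]
    have e3 : u (j * (x : G) * j⁻¹) * (eK K κ * u (z : G) * u ((x : G)⁻¹) * u ((z : G)⁻¹)) =
        u (j * (x : G) * j⁻¹) * (eK K κ * (u (z : G) * u ((x : G)⁻¹) * u ((z : G)⁻¹))) := by
      simp only [mul_assoc]
    rw [e2, e3]
  have h2 : ∀ x : F, u (j * (x : G) * j⁻¹) * ∑ z : F, u (z : G) * (eK K κ * u ((x : G)⁻¹)) *
        u ((z : G)⁻¹) = (if (x : G) ∈ K then (Nat.card F : ℂ) else 0) • eK K κ := by
    intro x
    rw [hAVG _ (hB.rmul _ (F.inv_mem x.2) _ hB.eA), coeff_mu, inv_inv, one_mul,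
      mul_smul_comm]
    by_cases hx : (x : G) ∈ K
    · rw [if_pos hx, hB.e1 _ hx, hB.ke _ (hj _ hx).1, (hj _ hx).2, smul_smul]
      congr 1
      have h3 := hB.ne _ hx
      field_simp
    · rw [if_neg hx, hB.e0 _ hx, mul_zero, zero_smul, zero_smul]
  rw [h0, Finset.sum_congr rfl (fun x _ => h2 x), ← Finset.sum_smul] at h1
  have h3 : (∑ x : F, if (x : G) ∈ K then (Nat.card F : ℂ) else 0) = 0 := by
    rcases smul_eq_zero.1 h1.symm with h | h
    · exact h
    · exact absurd h (eK_ne hP hB)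
  rw [← Finset.sum_filter, Finset.sum_const, nsmul_eq_mul] at h3
  rcases mul_eq_zero.1 h3 with h | h
  · have h4 : (Finset.univ.filter fun x : F => (x : G) ∈ K).card = 0 := by exact_mod_cast h
    rw [Finset.card_eq_zero] at h4
    have h5 : (1 : F) ∈ Finset.univ.filter fun x : F => (x : G) ∈ K :=
      Finset.mem_filter.2 ⟨Finset.mem_univ _, K.one_mem⟩
    rw [h4] at h5
    exact absurd h5 (Finset.notMem_empty _)
  · exact hF0 h

end IMPM

open IMPM in
theorem specIMP (hBAS : SpecBAS) (hAVG : SpecAVG) (hCEN : SpecCEN) : SpecIMP := by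
  intro G _ _ F K κ hP j hj
  classical
  have _ : Fintype F := Fintype.ofFinite F
  have hFn : F.Normal := hP.Fn
  have hB := hBAS G F K κ hP
  have hA : ∀ a, InA F K κ a → ∑ y : F, u (y : G) * a * u ((y : G)⁻¹) =
      ((Nat.card F : ℂ) * (Nat.card K : ℂ) * a.coeff 1) • eK K κ := by
    intro a ha
    rw [← hAVG G F K κ hP a ha, finsum_eq_sum_of_fintype]
  have hF0 : (Nat.card F : ℂ) ≠ 0 := by exact_mod_cast (Nat.card_pos (α := F)).ne'
  have hK0 : (Nat.card K : ℂ) ≠ 0 := by exact_mod_cast (Nat.card_pos (α := K)).ne'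
  obtain ⟨b, hb, ht0⟩ := exists_ne hP hB hA j hj
  have htA := T_mem hP hB j b hb
  have htc := T_comm F j b
  generalize T F j b = t at ht0 htA htc
  obtain ⟨w, hw⟩ : ∃ w, t.coeff w ≠ 0 := by
    by_contra hcon
    push Not at hcon
    apply ht0
    rw [← MonoidAlgebra.coeff_eq_zero]
    exact Finsupp.ext hcon
  have hwF : w ∈ F := by
    by_contra hcon
    exact hw (htA.1 w hcon)
  have hb' : InA F K κ (eK K κ * u w⁻¹) := hB.rmul _ (F.inv_mem hwF) _ hB.eA
  have hsA := T_mem hP hB j⁻¹ _ hb'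
  have hsc := T_comm F j⁻¹ (eK K κ * u w⁻¹)
  have hst : T F j⁻¹ (eK K κ * u w⁻¹) * t =
      ((Nat.card F : ℂ) * (Nat.card K : ℂ) * t.coeff w) • eK K κ := by
    have hbt : InA F K κ (u w⁻¹ * t) := hB.lmul _ (F.inv_mem hwF) _ htA
    have h1 := hA _ hbt
    rw [coeff_um, inv_inv, mul_one] at h1
    rw [← h1]
    unfold T
    rw [Finset.sum_mul]
    refine Fintype.sum_equiv (MulAut.conjNormal (H := F) j⁻¹).toEquiv _ _ fun x => ?_
    have e1 : (((MulAut.conjNormal (H := F) j⁻¹).toEquiv x : F) : G) = j⁻¹ * x * j⁻¹⁻¹ :=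
      MulAut.conjNormal_apply j⁻¹ x
    rw [e1, inv_inv]
    have e2 : u ((x : G)⁻¹) * t = t * u (j⁻¹ * (x : G)⁻¹ * j) := by
      have h2 := htc (j⁻¹ * (x : G)⁻¹ * j) (by
        have := hFn.conj_mem _ (F.inv_mem x.2) j⁻¹
        rwa [inv_inv] at this)
      rw [← h2]
      congr 2
      group
    have e3 : eK K κ * (u w⁻¹ * t) = u w⁻¹ * t := hB.el _ hbt
    have e4 : (j⁻¹ * (x : G) * j)⁻¹ = j⁻¹ * (x : G)⁻¹ * j := by group
    rw [e4]
    calc u (j⁻¹ * (x : G) * j) * (eK K κ * u w⁻¹) * u ((x : G)⁻¹) * t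
        = u (j⁻¹ * (x : G) * j) * (eK K κ * (u w⁻¹ * (u ((x : G)⁻¹) * t))) := by
          simp only [mul_assoc]
      _ = u (j⁻¹ * (x : G) * j) * (eK K κ * (u w⁻¹ * t)) * u (j⁻¹ * (x : G)⁻¹ * j) := by
          rw [e2]
          simp only [mul_assoc]
      _ = _ := by rw [e3]
  generalize T F j⁻¹ (eK K κ * u w⁻¹) = s at hsA hsc hst
  have hc0 : (Nat.card F : ℂ) * (Nat.card K : ℂ) * t.coeff w ≠ 0 :=
    mul_ne_zero (mul_ne_zero hF0 hK0) hw
  generalize (Nat.card F : ℂ) * (Nat.card K : ℂ) * t.coeff w = c₀ at hst hc0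
  have ht'A : InA F K κ (c₀⁻¹ • s) := hB.smul _ _ hsA
  have ht't : (c₀⁻¹ • s) * t = eK K κ := by
    rw [smul_mul_assoc, hst, smul_smul, inv_mul_cancel₀ hc0, one_smul]
  have htt' : t * (c₀⁻¹ • s) = eK K κ := by
    obtain ⟨c, hc⟩ := hCEN G F K κ hP (t * (c₀⁻¹ • s)) (hB.mul _ _ htA ht'A) (by
      intro y hy
      have hy' : j⁻¹ * y * j ∈ F := by
        have := hFn.conj_mem _ hy j⁻¹
        rwa [inv_inv] at this
      have h1 := htc (j⁻¹ * y * j) hy'
      have e1 : j * (j⁻¹ * y * j) * j⁻¹ = y := by group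
      rw [e1] at h1
      have h2 := hsc y hy
      rw [inv_inv] at h2
      rw [← mul_assoc, h1, mul_assoc, mul_smul_comm, h2, ← smul_mul_assoc, ← mul_assoc])
    have h3 : (c₀⁻¹ • s) = c • (c₀⁻¹ • s) := by
      have h4 : (c₀⁻¹ • s) * (t * (c₀⁻¹ • s)) = c₀⁻¹ • s := by
        rw [← mul_assoc, ht't, hB.el _ ht'A]
      rw [hc, mul_smul_comm, hB.er _ ht'A] at h4
      exact h4.symm
    have h5 : c₀⁻¹ • s ≠ 0 := by
      intro h
      rw [h, zero_mul] at ht't
      exact eK_ne hP hB ht't.symm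
    have h6 : (1 - c) • (c₀⁻¹ • s) = 0 := by
      rw [sub_smul, one_smul, ← h3, sub_self]
    rcases smul_eq_zero.1 h6 with h | h
    · have h7 : c = 1 := (sub_eq_zero.1 h).symm
      rw [hc, h7, one_smul]
    · exact absurd h h5
  exact ⟨t, c₀⁻¹ • s, htA, ht'A, htt', ht't, htc⟩

end Pool.Agent.Lib.MPbe1941.RP
end

section
/-!
# IRR: a nonzero element of the group algebra acts nontrivially in some irreducible representation
-/
set_option autoImplicit false

namespace Pool.Agent.Lib.MPbe1941.RP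

open Pool.Agent.Lib.MPbe1941

namespace IRRM

/-- elements whose multiples are all killed by `a` -/
noncomputable def NN {R : Type} [Ring R] (a : R) : Submodule R R where
  carrier := {x | ∀ b : R, a * (b * x) = 0}
  add_mem' := by
    intro x y hx hy b
    rw [mul_add, mul_add, hx b, hy b, add_zero]
  zero_mem' := by
    intro b
    rw [mul_zero, mul_zero]
  smul_mem' := by
    intro c x hx b
    rw [smul_eq_mul, ← mul_assoc b c x]
    exact hx (b * c)

theorem mem_NN {R : Type} [Ring R] (a x : R) : x ∈ NN a ↔ ∀ b : R, a * (b * x) = 0 := Iff.rfl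

theorem exists_simple {R : Type} [Ring R] [IsSemisimpleRing R] (a : R) (ha : a ≠ 0) :
    ∃ S : Submodule R R, IsSimpleModule R S ∧ ∃ x : S, a • x ≠ 0 := by
  by_contra hcon
  push Not at hcon
  have h1 : sSup {m : Submodule R R | IsSimpleModule R m} ≤ NN a := by
    refine sSup_le fun S hS => ?_
    intro x hx
    rw [mem_NN]
    intro b
    have h2 := hcon S hS ⟨b * x, S.smul_mem b hx⟩
    have h3 := congrArg (fun y : S => (y : R)) h2
    exact h3
  rw [IsSemisimpleModule.sSup_simples_eq_top] at h1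
  have h2 := (mem_NN a 1).1 (h1 (Submodule.mem_top)) 1
  rw [mul_one, mul_one] at h2
  exact ha h2

end IRRM

theorem specIRR : SpecIRR := by
  intro G _ _ a ha
  classical
  obtain ⟨S, hS, x, hx⟩ := IRRM.exists_simple a ha
  have hfd : FiniteDimensional ℂ (MonoidAlgebra ℂ G) := by
    have _ : Fintype G := Fintype.ofFinite G
    infer_instance
  have hfd2 : FiniteDimensional ℂ S :=
    FiniteDimensional.finiteDimensional_submodule (S.restrictScalars ℂ)
  let e : S ≃ₗ[ℂ] (Fin (Module.finrank ℂ S) → ℂ) := (Module.finBasis ℂ S).equivFun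
  let Φ : MonoidAlgebra ℂ G →ₐ[ℂ] Module.End ℂ (Fin (Module.finrank ℂ S) → ℂ) :=
    (e.conjAlgEquiv ℂ).toAlgHom.comp
      (Algebra.lsmul ℂ ℂ S)
  have hΦ : ∀ (b : MonoidAlgebra ℂ G) (v : Fin (Module.finrank ℂ S) → ℂ),
      Φ b v = e (b • e.symm v) := fun b v => rfl
  let ρ : Representation ℂ G (Fin (Module.finrank ℂ S) → ℂ) := (MonoidAlgebra.lift ℂ _ G).symm Φ
  have hρ : ρ.asAlgebraHom = Φ := (MonoidAlgebra.lift ℂ _ G).apply_symm_apply Φ
  refine ⟨Module.finrank ℂ S, ρ, ?_, ?_⟩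
  · rw [Representation.irreducible_iff_isSimpleModule_asModule]
    let E : ρ.asModule ≃ₗ[MonoidAlgebra ℂ G] S :=
      { toFun := fun v => e.symm (ρ.asModuleEquiv v)
        map_add' := fun v w => by rw [map_add, map_add]
        map_smul' := fun b v => by
          rw [Representation.asModuleEquiv_map_smul, hρ, hΦ, LinearEquiv.symm_apply_apply]
          rfl
        invFun := fun s => ρ.asModuleEquiv.symm (e s)
        left_inv := fun v => by simp
        right_inv := fun s => by simp }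
    exact IsSimpleModule.congr E
  · intro h
    rw [hρ] at h
    have h1 : Φ a (e x) = 0 := by rw [h]; rfl
    rw [hΦ, LinearEquiv.symm_apply_apply] at h1
    exact hx (e.map_eq_zero_iff.1 h1)

end Pool.Agent.Lib.MPbe1941.RP
end

section
/-!
# MP_be1941_al, block RP: Ito's theorem, easy direction (ITOR)
-/
set_option autoImplicit false

namespace Pool.Agent.Lib.MPbe1941.RP.ITORM

open Pool.Agent.Lib.MPbe1941 Pool.Agent.Lib.MPbe1941.RP

/-- The stabiliser of the pair `(K, κ)`. -/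
def stab {G : Type} [Group G] {F K : Subgroup G} {κ : G → ℂ} (hB : Bas F K κ) : Subgroup G where
  carrier := {g | FixK K κ g}
  mul_mem' := fun {a b} ha hb => hB.fmul a b ha hb
  one_mem' := fun x hx => by simp [hx]
  inv_mem' := fun {a} ha => hB.finv a ha

/-- A simultaneous eigenvector is fixed by `ρ(e)`. -/
theorem e_fix {G : Type} [Group G] [Finite G] (P : Subgroup G) (lam : G → ℂ)
    (hne : ∀ k ∈ P, lam k ≠ 0) {V : Type} [AddCommGroup V] [Module ℂ V]
    (ρ : Representation ℂ G V) (v : V) (hv : ∀ x ∈ P, ρ x v = lam x • v) :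
    ρ.asAlgebraHom (eK P lam) v = v := by
  classical
  have := Fintype.ofFinite P
  have h1 : ∀ x : P, ρ.asAlgebraHom (MonoidAlgebra.single (x : G) (lam x)⁻¹) v = v := by
    intro x
    rw [Representation.asAlgebraHom_single, LinearMap.smul_apply, hv x x.2, smul_smul,
      inv_mul_cancel₀ (hne x x.2), one_smul]
  have hc : (Nat.card P : ℂ) ≠ 0 := by
    exact_mod_cast Nat.card_pos.ne'
  rw [eK, finsum_eq_sum_of_fintype, map_smul, map_sum, LinearMap.smul_apply, LinearMap.sum_apply]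
  simp only [h1, Finset.sum_const, Finset.card_univ, ← Nat.card_eq_fintype_card]
  rw [← Nat.cast_smul_eq_nsmul ℂ, smul_smul, inv_mul_cancel₀ hc, one_smul]

theorem spec (hBAS : SpecBAS) (hIDM : SpecIDM) (hDIV : SpecDIV) (hEIG : SpecEIG) : SpecITOR := by
  rintro G _ _ r hr ⟨P, hPn, hPc, hPp, hPi⟩ d ⟨ρ, hirr⟩ hrd
  classical
  have hirr' := hirr
  -- the space is nontrivial
  have hVn : Nontrivial (Fin d → ℂ) := by
    by_contra h
    rw [not_nontrivial_iff_subsingleton] at h
    obtain ⟨a, b, hab⟩ := hirr.exists_pair_ne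
    apply hab
    apply SetLike.coe_injective
    ext x
    have hx : x = 0 := Subsingleton.elim _ _
    subst hx
    exact ⟨fun _ => b.toSubmodule.zero_mem, fun _ => a.toSubmodule.zero_mem⟩
  -- the complement
  have hcop : Nat.Coprime (Nat.card P) P.index := by
    have := Fact.mk hr
    obtain ⟨n, hn⟩ := IsPGroup.iff_card.mp hPp
    rw [hn]
    exact Nat.Coprime.pow_left n ((Nat.Prime.coprime_iff_not_dvd hr).mpr hPi)
  obtain ⟨C, hC⟩ := Subgroup.exists_right_complement'_of_coprime hcop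
  -- the eigenvector
  obtain ⟨lam, v, hv0, hl1, hlm, hlv⟩ := hEIG G P hPc (Fin d → ℂ) ρ
  have hpair : IsPair P P lam :=
    { Fn := hPn
      le := le_rfl
      comm := fun x hx y hy => P.mul_mem (P.mul_mem (P.mul_mem hx hy) (P.inv_mem hx))
        (P.inv_mem hy)
      one := hl1
      mul := hlm
      inv := fun f hf x hx => by
        have e : f * x * f⁻¹ = x := by rw [hPc f hf x hx, mul_inv_cancel_right]
        rw [e]; exact ⟨hx, rfl⟩
      nd := fun x hx hx' => absurd hx hx' }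
  have hB := hBAS G P P lam hpair
  set E := ρ.asAlgebraHom (eK P lam) with hE
  have hEv : E v = v := e_fix P lam hB.ne ρ v hlv
  have hE0 : E ≠ 0 := by
    intro h
    rw [h] at hEv
    exact hv0 hEv.symm
  have hEE : E * E = E := by rw [hE, ← map_mul, hB.idem]
  have hu : ∀ g, ρ.asAlgebraHom (u g) = ρ g := fun g => ρ.asAlgebraHom_single_one g
  have hcom : ∀ g ∈ stab hB, ρ g * E = E * ρ g := by
    intro g hg
    rw [← hu g, hE, ← map_mul, ← map_mul, hB.ce g hg]
  have hzero : ∀ g, g ∉ stab hB → E * ρ g * E = 0 := by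
    intro g hg
    rw [← hu g, hE, ← map_mul, ← map_mul, hB.ort g hg, map_zero]
  have hPE : ∀ p ∈ P, ρ p * E = lam p • E := by
    intro p hp
    rw [← hu p, hE, ← map_mul, hB.ke p hp, map_smul]
  have hPS : P ≤ stab hB := fun p hp => hpair.inv p hp
  -- the degree
  have h1 := hIDM G (Fin d → ℂ) ρ hirr (stab hB) (eK P lam) hB.idem (fun s hs => hB.ce s hs)
    (fun g hg => hB.ort g hg) hE0
  rw [Module.finrank_fin_fun, ← hE] at h1
  have h2 : d = (stab hB).index * Module.finrank ℂ (LinearMap.range E) := by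
    have h3 : (stab hB).index * Nat.card (stab hB) = Nat.card G := (stab hB).index_mul_card
    rw [← h3] at h1
    have h4 : 0 < Nat.card (stab hB) := Nat.card_pos
    apply Nat.eq_of_mul_eq_mul_right h4
    rw [h1]; ring
  -- the representation of `J` on the range of `E`
  let J : Subgroup G := stab hB ⊓ C
  have hstab : ∀ j ∈ stab hB, ∀ y ∈ LinearMap.range E, ρ j y ∈ LinearMap.range E := by
    rintro j hj _ ⟨x, rfl⟩
    exact ⟨ρ j x, (LinearMap.congr_fun (hcom j hj) x).symm⟩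
  let σ : Representation ℂ J (LinearMap.range E) :=
    { toFun := fun j => (ρ (j : G)).restrict (hstab j j.2.1)
      map_one' := by ext x; simp
      map_mul' := fun a b => by ext x; simp }
  have hσ : ∀ (j : J) (y : LinearMap.range E), ((σ j y : LinearMap.range E) : Fin d → ℂ) =
      ρ (j : G) (y : Fin d → ℂ) := fun j y => rfl
  have hyE : ∀ y ∈ LinearMap.range E, E y = y := by
    rintro _ ⟨x, rfl⟩
    exact LinearMap.congr_fun hEE x
  have hnt : Nontrivial (Subrepresentation σ) := by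
    refine ⟨⊥, ⊤, fun h => ?_⟩
    have h3 : (⟨v, ⟨v, hEv⟩⟩ : LinearMap.range E) ∈ (⊤ : Subrepresentation σ).toSubmodule :=
      Submodule.mem_top
    rw [← h] at h3
    exact hv0 (congrArg Subtype.val ((Submodule.mem_bot ℂ).mp h3))
  have hσirr : σ.IsIrreducible := by
    refine IsSimpleOrder.of_forall_eq_top fun Y' hY' => ?_
    -- the span of the translates
    let T : Set (Fin d → ℂ) := {w | ∃ (g : G) (y : LinearMap.range E), y ∈ Y' ∧ w = ρ g y}
    let M : Subrepresentation ρ :=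
      { toSubmodule := Submodule.span ℂ T
        apply_mem_toSubmodule := by
          intro g w hw
          induction hw using Submodule.span_induction with
          | mem w hw =>
            obtain ⟨g', y, hy, rfl⟩ := hw
            refine Submodule.subset_span ⟨g * g', y, hy, ?_⟩
            rw [map_mul]; rfl
          | zero => rw [map_zero]; exact Submodule.zero_mem _
          | add a b _ _ ha hb => rw [map_add]; exact Submodule.add_mem _ ha hb
          | smul c a _ ha => rw [map_smul]; exact Submodule.smul_mem _ _ ha }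
    have hYne : ∃ y ∈ Y', y ≠ 0 := by
      by_contra hcon
      push Not at hcon
      apply hY'
      apply SetLike.coe_injective
      ext x
      constructor
      · intro hx
        rw [hcon x hx]
        exact (⊥ : Subrepresentation σ).toSubmodule.zero_mem
      · intro hx
        have hx0 : x = 0 := (Submodule.mem_bot ℂ).mp hx
        rw [hx0]
        exact Y'.toSubmodule.zero_mem
    obtain ⟨y0, hy0, hy0'⟩ := hYne
    have hy0M : (y0 : Fin d → ℂ) ∈ M.toSubmodule :=
      Submodule.subset_span ⟨1, y0, hy0, by simp⟩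
    have hMtop : M = ⊤ := by
      rcases hirr.eq_bot_or_eq_top M with h | h
      · exfalso
        rw [h] at hy0M
        exact hy0' (Subtype.ext ((Submodule.mem_bot ℂ).mp hy0M))
      · exact h
    -- the key property
    have hkey : ∀ w ∈ M.toSubmodule, (⟨E w, ⟨w, rfl⟩⟩ : LinearMap.range E) ∈ Y' := by
      intro w hw
      induction hw using Submodule.span_induction with
      | mem w hw =>
        obtain ⟨g, y, hy, rfl⟩ := hw
        by_cases hg : g ∈ stab hB
        · obtain ⟨⟨⟨p, hp⟩, ⟨c, hc⟩⟩, hpc⟩ := hC.2 g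
          have hpc' : p * c = g := hpc
          have hcS : c ∈ stab hB := by
            have : c = p⁻¹ * g := by rw [← hpc']; group
            rw [this]
            exact (stab hB).mul_mem ((stab hB).inv_mem (hPS hp)) hg
          have e1 : E (ρ g (y : Fin d → ℂ)) = lam p • ρ c (y : Fin d → ℂ) := by
            have e2 := LinearMap.congr_fun (hcom g hg) (y : Fin d → ℂ)
            rw [Module.End.mul_apply, Module.End.mul_apply, hyE _ y.2] at e2
            rw [← e2, ← hpc', map_mul, Module.End.mul_apply]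
            have e3 := LinearMap.congr_fun (hPE p hp) (ρ c (y : Fin d → ℂ))
            rw [Module.End.mul_apply, LinearMap.smul_apply, hyE _ (hstab c hcS _ y.2)] at e3
            exact e3
          have e4 : (⟨E (ρ g (y : Fin d → ℂ)), ⟨_, rfl⟩⟩ : LinearMap.range E) =
              lam p • σ ⟨c, ⟨hcS, hc⟩⟩ y := by
            apply Subtype.ext
            rw [Submodule.coe_smul, hσ]
            exact e1
          rw [e4]
          exact Y'.toSubmodule.smul_mem _ (Y'.apply_mem_toSubmodule _ hy)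
        · have e1 : E (ρ g (y : Fin d → ℂ)) = 0 := by
            have e2 := LinearMap.congr_fun (hzero g hg) (y : Fin d → ℂ)
            rw [Module.End.mul_apply, Module.End.mul_apply, hyE _ y.2] at e2
            exact e2
          have e4 : (⟨E (ρ g (y : Fin d → ℂ)), ⟨_, rfl⟩⟩ : LinearMap.range E) = 0 :=
            Subtype.ext e1
          rw [e4]
          exact Y'.toSubmodule.zero_mem
      | zero =>
        have e4 : (⟨E 0, ⟨_, rfl⟩⟩ : LinearMap.range E) = 0 := Subtype.ext (map_zero E)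
        rw [e4]
        exact Y'.toSubmodule.zero_mem
      | add a b _ _ ha hb =>
        have e4 : (⟨E (a + b), ⟨_, rfl⟩⟩ : LinearMap.range E) =
            ⟨E a, ⟨a, rfl⟩⟩ + ⟨E b, ⟨b, rfl⟩⟩ := Subtype.ext (map_add E a b)
        rw [e4]
        exact Y'.toSubmodule.add_mem ha hb
      | smul c a _ ha =>
        have e4 : (⟨E (c • a), ⟨_, rfl⟩⟩ : LinearMap.range E) =
            c • ⟨E a, ⟨a, rfl⟩⟩ := Subtype.ext (map_smul E c a)
        rw [e4]
        exact Y'.toSubmodule.smul_mem _ ha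
    apply SetLike.coe_injective
    ext y
    refine ⟨fun _ => Submodule.mem_top, fun _ => ?_⟩
    have h3 : (y : Fin d → ℂ) ∈ M.toSubmodule := by rw [hMtop]; exact Submodule.mem_top
    have h4 := hkey _ h3
    have h5 : (⟨E (y : Fin d → ℂ), ⟨_, rfl⟩⟩ : LinearMap.range E) = y :=
      Subtype.ext (hyE _ y.2)
    rw [h5] at h4
    exact h4
  have hdiv := hDIV J (LinearMap.range E) σ hσirr
  have hJC : Nat.card J ∣ Nat.card C := Subgroup.card_dvd_of_le inf_le_right
  have hCi : Nat.card C = P.index := hC.symm.index_eq_card.symm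
  rw [h2] at hrd
  rcases hr.dvd_mul.mp hrd with h | h
  · exact hPi (h.trans (Subgroup.index_dvd_of_le hPS))
  · exact hPi (hCi ▸ (h.trans (hdiv.trans hJC)))

end Pool.Agent.Lib.MPbe1941.RP.ITORM

namespace Pool.Agent.Lib.MPbe1941.RP

theorem specITOR (hBAS : SpecBAS) (hIDM : SpecIDM) (hDIV : SpecDIV) (hEIG : SpecEIG) :
    SpecITOR := ITORM.spec hBAS hIDM hDIV hEIG

end Pool.Agent.Lib.MPbe1941.RP
end

section
/-!
# MP_be1941_al, block RP, module REPA
-/
set_option autoImplicit false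

namespace Pool.Agent.Lib.MPbe1941.RP

open Pool.Agent.Lib.MPbe1941

namespace REPAM

open scoped Pointwise

section

variable {G : Type} [Group G] [Finite G]

theorem card_sup (F I : Subgroup G) (hF : F.Normal) (h : F ⊓ I = ⊥) :
    Nat.card (F ⊔ I : Subgroup G) = Nat.card F * Nat.card I := by
  have h1 : F.relIndex (F ⊔ I) = Nat.card I := by
    rw [Subgroup.relIndex_sup_left, ← Subgroup.inf_relIndex_right, h, Subgroup.relIndex_bot_left]
  have h2 := Subgroup.relIndex_mul_relIndex (⊥ : Subgroup G) F (F ⊔ I) bot_le le_sup_left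
  rw [Subgroup.relIndex_bot_left, Subgroup.relIndex_bot_left, h1] at h2
  exact h2.symm

theorem mem_sup (F I : Subgroup G) (hF : F.Normal) (g : G) :
    g ∈ F ⊔ I ↔ ∃ y ∈ F, ∃ h ∈ I, y * h = g := by
  have h1 := Subgroup.normal_mul F I
  have h2 : g ∈ ((F ⊔ I : Subgroup G) : Set G) ↔ g ∈ (F : Set G) * (I : Set G) := by rw [h1]
  rw [SetLike.mem_coe] at h2
  rw [h2, Set.mem_mul]
  rfl

/-- uniqueness of the decomposition -/
theorem mem_iff {F H I : Subgroup G} (hF : F.Normal) (hIH : I ≤ H) (h : F ⊓ H = ⊥) {y k : G}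
    (hy : y ∈ F) (hk : k ∈ H) : y * k ∈ F ⊔ I ↔ k ∈ I := by
  constructor
  · intro h1
    rw [mem_sup F I hF] at h1
    obtain ⟨z, hz, i, hi, e⟩ := h1
    have h2 : z⁻¹ * y = i * k⁻¹ := by
      have : z * i * k⁻¹ = y := by rw [e]; group
      rw [← this]; group
    have h3 : z⁻¹ * y ∈ F ⊓ H :=
      ⟨F.mul_mem (F.inv_mem hz) hy, by rw [h2]; exact H.mul_mem (hIH hi) (H.inv_mem hk)⟩
    rw [h, Subgroup.mem_bot] at h3
    rw [h2] at h3
    have h4 : k = i := by
      have := mul_inv_eq_one.1 h3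
      exact this.symm
    rw [h4]; exact hi
  · intro h1
    exact Subgroup.mul_mem _ (Subgroup.mem_sup_left hy) (Subgroup.mem_sup_right h1)

/-- Sylow subgroups -/
theorem sylow {I H : Subgroup G} (hIH : I ≤ H) {r : ℕ} (hr : r.Prime) (h : ¬ r ∣ I.relIndex H) :
    ∃ R : Subgroup G, SylIn r H R ∧ R ≤ I := by
  have : Fact r.Prime := ⟨hr⟩
  let P : Sylow r I := default
  refine ⟨(P : Subgroup I).map I.subtype, ⟨?_, ?_, ?_⟩, ?_⟩
  · intro x hx
    obtain ⟨y, -, rfl⟩ := Subgroup.mem_map.1 hx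
    exact hIH y.2
  · exact P.2.map _
  · have h1 : ((P : Subgroup I).map I.subtype).relIndex I = (P : Subgroup I).index := by
      rw [Subgroup.relIndex]
      congr 1
      ext x
      rw [Subgroup.mem_subgroupOf, Subgroup.mem_map]
      constructor
      · rintro ⟨y, hy, e⟩
        have : y = x := Subtype.ext e
        rw [← this]; exact hy
      · intro hx
        exact ⟨x, hx, rfl⟩
    have h0 : (P : Subgroup I).map I.subtype ≤ I := by
      intro x hx
      obtain ⟨y, -, rfl⟩ := Subgroup.mem_map.1 hx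
      exact y.2
    rw [← Subgroup.relIndex_mul_relIndex _ I H h0 hIH, h1]
    intro h2
    rcases hr.dvd_mul.1 h2 with h3 | h3
    · exact P.not_dvd_index h3
    · exact h h3
  · intro x hx
    obtain ⟨y, -, rfl⟩ := Subgroup.mem_map.1 hx
    exact y.2

theorem card_rel {I H : Subgroup G} (hIH : I ≤ H) :
    Nat.card H = Nat.card I * I.relIndex H := by
  have h := Subgroup.relIndex_mul_relIndex (⊥ : Subgroup G) I H bot_le hIH
  rw [Subgroup.relIndex_bot_left, Subgroup.relIndex_bot_left] at h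
  exact h.symm

/-- the stabiliser of `(K, κ)` in `H` -/
def stJ {F K : Subgroup G} {κ : G → ℂ} (hB : Bas F K κ) (H : Subgroup G) (h1 : FixK K κ 1) :
    Subgroup G where
  carrier := {h | h ∈ H ∧ FixK K κ h}
  one_mem' := ⟨H.one_mem, h1⟩
  mul_mem' := fun {a b} ha hb => ⟨H.mul_mem ha.1 hb.1, hB.fmul a b ha.2 hb.2⟩
  inv_mem' := fun {a} ha => ⟨H.inv_mem ha.1, hB.finv a ha.2⟩

/-- the stabiliser of `(K, κ)` and `β` in `H` -/
def stI {F K : Subgroup G} {κ : G → ℂ} (hB : Bas F K κ) (H : Subgroup G) (h1 : FixK K κ 1)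
    (E : Subgroup G) (β : G → ℂ) (hEn : ∀ h ∈ H, FixK K κ h → ∀ x ∈ E, h * x * h⁻¹ ∈ E) :
    Subgroup G where
  carrier := {h | h ∈ H ∧ InI K κ E β h}
  one_mem' := ⟨H.one_mem, h1, fun x _ => by simp⟩
  mul_mem' := by
    rintro a b ⟨ha, ha1, ha2⟩ ⟨hb, hb1, hb2⟩
    refine ⟨H.mul_mem ha hb, hB.fmul a b ha1 hb1, fun x hx => ?_⟩
    have e : a * b * x * (a * b)⁻¹ = a * (b * x * b⁻¹) * a⁻¹ := by group
    rw [e, ha2 _ (hEn b hb hb1 x hx), hb2 x hx]
  inv_mem' := by
    rintro a ⟨ha, ha1, ha2⟩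
    have hi := hB.finv a ha1
    refine ⟨H.inv_mem ha, hi, fun x hx => ?_⟩
    have hm := hEn a⁻¹ (H.inv_mem ha) hi x hx
    have := ha2 _ hm
    rw [← this]
    congr 1
    group

end

end REPAM

open REPAM

theorem specREPA (hBAS : SpecBAS) (hEPS : SpecEPS) (hIRR : SpecIRR) (hIDM : SpecIDM)
    (hDSQ : SpecDSQ) : SpecREPA := by
  intro G _ _ F K H κ hp hsup hinf hcop E β hEH hEc hEf hEn hβ1 hβm
  have hB := hBAS G F K κ hp
  obtain ⟨ε, hε0, hεε, heε, hεc, hεo⟩ := hEPS G F K κ hp H E β hinf hcop hEH hEc hEf hEn hβ1 hβm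
  obtain ⟨d, ρ, hρ, hρε⟩ := hIRR G ε hε0
  have hFn := hp.Fn
  have h1 : FixK K κ 1 := hp.inv 1 F.one_mem
  have hall : ∀ g : G, ∃ y ∈ F, ∃ h ∈ H, y * h = g := fun g =>
    (mem_sup F H hFn g).1 (by rw [hsup]; trivial)
  have hcardG : Nat.card G = Nat.card F * Nat.card H := by
    rw [← card_sup F H hFn hinf, hsup]; exact (Subgroup.card_top).symm
  have hρe : ρ.asAlgebraHom (eK K κ) ≠ 0 := by
    intro h
    apply hρε
    rw [← heε, map_mul, h, zero_mul]
  have hFpos : 0 < Nat.card F := Nat.card_pos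
  -- the stabilisers
  set J := stJ hB H h1 with hJ
  set I := stI hB H h1 E β hEn with hI
  have hJH : J ≤ H := fun x hx => hx.1
  have hIH : I ≤ H := fun x hx => hx.1
  have hJinf : F ⊓ J = ⊥ := le_bot_iff.1 (by rw [← hinf]; exact inf_le_inf_left F hJH)
  have hIinf : F ⊓ I = ⊥ := le_bot_iff.1 (by rw [← hinf]; exact inf_le_inf_left F hIH)
  have hmJ : ∀ h ∈ H, (h ∈ J ↔ FixK K κ h) := fun h hh => ⟨fun h => h.2, fun h => ⟨hh, h⟩⟩
  have hmI : ∀ h ∈ H, (h ∈ I ↔ InI K κ E β h) := fun h hh => ⟨fun h => h.2, fun h => ⟨hh, h⟩⟩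
  -- IDM for `ε`
  have hd1 : d * Nat.card I = Nat.card H *
      Module.finrank ℂ (LinearMap.range (ρ.asAlgebraHom ε)) := by
    have := hIDM G (Fin d → ℂ) ρ hρ (F ⊔ I) ε hεε ?_ ?_ hρε
    · rw [card_sup F I hFn hIinf, hcardG, Module.finrank_fin_fun] at this
      apply Nat.eq_of_mul_eq_mul_left hFpos
      calc _ = d * (Nat.card F * Nat.card I) := by ring
        _ = _ := by rw [this]; ring
    · intro s hs
      obtain ⟨y, hy, h, hh, rfl⟩ := (mem_sup F I hFn s).1 hs
      exact hεc y hy h (hIH hh) ((hmI h (hIH hh)).1 hh)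
    · intro g hg
      obtain ⟨y, hy, h, hh, rfl⟩ := hall g
      refine hεo y hy h hh ?_
      intro hh2
      exact hg ((mem_iff hFn hIH hinf hy hh).2 ((hmI h hh).2 hh2))
  -- IDM for `e`
  have hfy : ∀ y ∈ F, ∀ h, FixK K κ (y * h) ↔ FixK K κ h := by
    intro y hy h
    constructor
    · intro h2
      have := hB.fmul y⁻¹ (y * h) (hB.finv y (hp.inv y hy)) h2
      simpa using this
    · exact hB.fmul y h (hp.inv y hy)
  have hd2 : d * Nat.card J = Nat.card H *
      Module.finrank ℂ (LinearMap.range (ρ.asAlgebraHom (eK K κ))) := by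
    have := hIDM G (Fin d → ℂ) ρ hρ (F ⊔ J) (eK K κ) hB.idem ?_ ?_ hρe
    · rw [card_sup F J hFn hJinf, hcardG, Module.finrank_fin_fun] at this
      apply Nat.eq_of_mul_eq_mul_left hFpos
      calc _ = d * (Nat.card F * Nat.card J) := by ring
        _ = _ := by rw [this]; ring
    · intro s hs
      obtain ⟨y, hy, h, hh, rfl⟩ := (mem_sup F J hFn s).1 hs
      exact hB.ce _ ((hfy y hy h).2 ((hmJ h (hJH hh)).1 hh))
    · intro g hg
      obtain ⟨y, hy, h, hh, rfl⟩ := hall g
      refine hB.ort _ ?_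
      intro hh2
      exact hg ((mem_iff hFn hJH hinf hy hh).2 ((hmJ h hh).2 ((hfy y hy h).1 hh2)))
  refine ⟨d, ⟨ρ, hρ⟩, ?_, ?_⟩
  · intro r hr hrd
    have h3 := dvd_trans hrd (hDSQ G F K κ hp (Fin d → ℂ) ρ)
    have h4 := hr.dvd_of_dvd_pow h3
    rw [card_rel hJH] at hd2
    have h5 : d = J.relIndex H *
        Module.finrank ℂ (LinearMap.range (ρ.asAlgebraHom (eK K κ))) := by
      have hJpos : 0 < Nat.card J := Nat.card_pos
      apply Nat.eq_of_mul_eq_mul_left hJpos
      rw [mul_comm, hd2]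
      ring
    rw [h5]
    exact Dvd.dvd.mul_left h4 _
  · intro r hr hR
    by_contra hrd
    rw [card_rel hIH] at hd1
    have h5 : d = I.relIndex H *
        Module.finrank ℂ (LinearMap.range (ρ.asAlgebraHom ε)) := by
      have hIpos : 0 < Nat.card I := Nat.card_pos
      apply Nat.eq_of_mul_eq_mul_left hIpos
      rw [mul_comm, hd1]
      ring
    have h6 : ¬ r ∣ I.relIndex H := by
      intro h7
      apply hrd
      rw [h5]
      exact Dvd.dvd.mul_right h7 _
    obtain ⟨R, hRS, hRI⟩ := sylow hIH hr h6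
    obtain ⟨h, hh, hh2⟩ := hR R hRS
    exact hh2 ((hmI h (hIH (hRI hh))).1 (hRI hh))

end Pool.Agent.Lib.MPbe1941.RP
end

section
/-!
# MP_be1941_al, block REP-A: module UOP

The operators `U_a = t_{a⁻¹} a` (`a ∈ J`): a homomorphism of `J` into the group algebra which
commutes with `F` and is equivariant for `J`.
-/
set_option autoImplicit false

namespace Pool.Agent.Lib.MPbe1941.RP

open Pool.Agent.Lib.MPbe1941

namespace UOPM

/-- Two linear maps which agree on `F` agree on the elements supported on `F`. -/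
lemma lin {G : Type} [Group G] (F : Subgroup G)
    (L R : MonoidAlgebra ℂ G →ₗ[ℂ] MonoidAlgebra ℂ G) (h : ∀ x ∈ F, L (u x) = R (u x))
    (a : MonoidAlgebra ℂ G) (ha : ∀ g, g ∉ F → a.coeff g = 0) : L a = R a := by
  have e : a = ∑ g ∈ a.coeff.support, a.coeff g • (u g : MonoidAlgebra ℂ G) := by
    conv_lhs => rw [← MonoidAlgebra.sum_coeff_single a]
    rw [Finsupp.sum]
    refine Finset.sum_congr rfl fun g _ => ?_
    simp [u]
  rw [e, map_sum, map_sum]
  refine Finset.sum_congr rfl fun g hg => ?_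
  rw [map_smul, map_smul]
  by_cases hgF : g ∈ F
  · rw [h g hgF]
  · exact absurd (ha g hgF) (Finsupp.mem_support_iff.mp hg)

lemma uu {G : Type} [Group G] (x y : G) : (u x : MonoidAlgebra ℂ G) * u y = u (x * y) := by
  simp [u]

lemma u1 {G : Type} [Group G] : (u 1 : MonoidAlgebra ℂ G) = 1 := rfl

/-- `j a j⁻¹ = t_j a t_{j⁻¹}`. -/
lemma conj {G : Type} [Group G] {F K : Subgroup G} {κ : G → ℂ} (B : Bas F K κ)
    (J : Subgroup G) (hJ : ∀ j ∈ J, FixK K κ j) (t : G → MonoidAlgebra ℂ G)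
    (t1 : t 1 = eK K κ) (tm : ∀ j ∈ J, ∀ k ∈ J, t (j * k) = t j * t k)
    (tc : ∀ j ∈ J, ∀ y ∈ F, u (j * y * j⁻¹) * t j = t j * u y) (j : G) (hj : j ∈ J)
    (a : MonoidAlgebra ℂ G) (ha : InA F K κ a) :
    u j * a * u j⁻¹ = t j * a * t j⁻¹ := by
  have h1 : t j * a = u j * a * u j⁻¹ * t j := by
    have := lin F (LinearMap.mulLeft ℂ (t j))
      (LinearMap.mulRight ℂ (u j⁻¹ * t j) ∘ₗ LinearMap.mulLeft ℂ (u j)) (by
        intro x hx
        simp only [LinearMap.mulLeft_apply, LinearMap.comp_apply, LinearMap.mulRight_apply]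
        rw [← tc j hj x hx, ← uu, ← uu, mul_assoc, mul_assoc]) a ha.1
    simpa [mul_assoc] using this
  have h2 : t j * t j⁻¹ = eK K κ := by
    rw [← tm j hj _ (J.inv_mem hj), mul_inv_cancel, t1]
  rw [h1, mul_assoc (u j * a * u j⁻¹), h2, mul_assoc (u j * a), B.ce _ (B.finv _ (hJ j hj)),
    ← mul_assoc, mul_assoc (u j) a (eK K κ), B.er a ha]

end UOPM

theorem specUOP (hBAS : SpecBAS) (hHOM : SpecHOM) : SpecUOP := by
  intro G _ _ F K κ hP J hJ hco hFJ
  have B := hBAS G F K κ hP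
  obtain ⟨t, t1, tA, tm, tc⟩ := hHOM G F K κ hP J hJ hco
  have hcj := fun j hj a ha => UOPM.conj B J hJ t t1 tm tc j hj a ha
  have hcu : ∀ j ∈ J, ∀ a, InA F K κ a → u j * a = t j * a * t j⁻¹ * u j := by
    intro j hj a ha
    rw [← hcj j hj a ha, mul_assoc (u j * a), UOPM.uu, inv_mul_cancel, UOPM.u1, mul_one]
  refine ⟨fun a => t a⁻¹ * u a, ?_, ?_, ?_, ?_, ?_⟩
  · show t (1 : G)⁻¹ * u 1 = _
    rw [inv_one, t1, UOPM.u1, mul_one]
  · intro a ha b hb
    show t (a * b)⁻¹ * u (a * b) = t a⁻¹ * u a * (t b⁻¹ * u b)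
    have h1 : u a * t b⁻¹ = t a * t b⁻¹ * t a⁻¹ * u a := hcu a ha _ (tA _ (J.inv_mem hb))
    calc t (a * b)⁻¹ * u (a * b)
        = t ((a⁻¹ * a) * (b⁻¹ * a⁻¹)) * (u a * u b) := by
          rw [UOPM.uu]; congr 2; group
      _ = t a⁻¹ * (t a * t b⁻¹ * t a⁻¹ * u a) * u b := by
          rw [tm _ (J.mul_mem (J.inv_mem ha) ha) _ (J.mul_mem (J.inv_mem hb) (J.inv_mem ha)),
            tm _ (J.inv_mem ha) _ ha, tm _ (J.inv_mem hb) _ (J.inv_mem ha)]
          simp only [mul_assoc]
      _ = _ := by rw [← h1]; simp only [mul_assoc]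
  · intro a ha y hy
    show u y * (t a⁻¹ * u a) = t a⁻¹ * u a * u y
    have hy' : a * y * a⁻¹ ∈ F := hP.Fn.conj_mem y hy a
    have h1 := tc a⁻¹ (J.inv_mem ha) _ hy'
    have h2 : a⁻¹ * (a * y * a⁻¹) * (a⁻¹)⁻¹ = y := by group
    rw [h2] at h1
    rw [← mul_assoc, h1, mul_assoc (t a⁻¹), mul_assoc (t a⁻¹), UOPM.uu, UOPM.uu]
    congr 2
    group
  · intro a ha j hj
    show u j * (t a⁻¹ * u a) = t (j * a * j⁻¹)⁻¹ * u (j * a * j⁻¹) * u j
    have h1 : t (j * a * j⁻¹)⁻¹ = t j * t a⁻¹ * t j⁻¹ := by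
      have e : (j * a * j⁻¹)⁻¹ = (j * a⁻¹) * j⁻¹ := by group
      rw [e, tm _ (J.mul_mem hj (J.inv_mem ha)) _ (J.inv_mem hj), tm _ hj _ (J.inv_mem ha)]
    rw [← mul_assoc, hcu j hj _ (tA _ (J.inv_mem ha)), h1, mul_assoc, mul_assoc _ _ (u j),
      UOPM.uu, UOPM.uu]
    congr 2
    group
  · intro a ha hne
    show (t a⁻¹ * u a).coeff 1 = 0
    have hnF : a⁻¹ ∉ F := by
      intro h
      have : a⁻¹ ∈ F ⊓ J := ⟨h, J.inv_mem ha⟩
      rw [hFJ, Subgroup.mem_bot] at this
      exact hne (inv_eq_one.mp this)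
    have := (tA _ (J.inv_mem ha)).1 _ hnF
    simpa [u] using this

end Pool.Agent.Lib.MPbe1941.RP
end
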